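import Mathlib

set_option autoImplicit false

open Finset

namespace Pool.Agent.Lib.MP_ffcda7_co

/-- `[0,s]A = G`: every element of `G` is a sum of at most `s` elements of `A`, repetition
allowed. -/
def IsBasis {G : Type} [AddCommGroup G] (A : Finset G) (s : ℕ) : Prop :=
  ∀ x : G, ∃ c : G → ℕ, ∑ a ∈ A, c a ≤ s ∧ ∑ a ∈ A, c a • a = x

/-- `φ(G,[0,s]) ≤ m`: `G` has an `s`-basis with at most `m` elements. -/
def HasBasis (G : Type) [AddCommGroup G] (m s : ℕ) : Prop :=
  ∃ A : Finset G, A.card ≤ m ∧ IsBasis A s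

/-- the largest `n` such that `ℤ/n` has an `s`-basis with at most `m` elements. -/
noncomputable def f (m s : ℕ) : ℕ := sSup {n | 1 ≤ n ∧ HasBasis (ZMod n) m s}

/-- the largest `N` such that `ℤ/n` has an `s`-basis with at most `m` elements for all
`1 ≤ n ≤ N`. -/
noncomputable def g (m s : ℕ) : ℕ := sSup {N | ∀ n, 1 ≤ n → n ≤ N → HasBasis (ZMod n) m s}

end Pool.Agent.Lib.MP_ffcda7_co
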