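import Mathlib
import Pool.Agent.Lib.MP_ffcda7_co.Defs

section

set_option autoImplicit false

open Finset

namespace Pool.Agent.Lib.MP_ffcda7_co

/-- `n` has a chain of relations close to `T • diag ν`. -/
def Good (m : ℕ) (ν : ℕ → ℕ) (ε T : ℝ) (n : ℕ) : Prop :=
  ∃ (N : ℕ → ℕ → ℤ) (x : ℕ → ℤ), x 0 = 1 ∧ x 1 = N 0 0 ∧
    (∀ i, i + 1 < m → ∑ j ∈ range m, N i j * x j = 0) ∧
    (∑ j ∈ range m, N (m - 1) j * x j = n) ∧
    ∀ i < m, ∀ j < m, |(N i j : ℝ) - (if i = j then (ν i : ℝ) * T else 0)| ≤ ε * T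

lemma base_two (a b : ℕ) (ha : 0 < a) (hb : 0 < b) (ε : ℝ) (hε : 0 < ε) :
    ∃ T0 : ℝ, 0 < T0 ∧ ∀ T : ℝ, T0 ≤ T → ∀ n : ℕ, (n : ℝ) = a * b * T ^ 2 →
      ∃ u v : ℤ, |(u : ℝ) - a * T| ≤ ε * T ∧ |(v : ℝ) - b * T| ≤ ε * T ∧
        |((n : ℝ) - v * u)| ≤ ε * T := by
  -- constants
  have ha' : (1 : ℝ) ≤ a := by exact_mod_cast ha
  have hb' : (1 : ℝ) ≤ b := by exact_mod_cast hb
  set D : ℝ := a * b * 4 with hD
  have hD1 : 4 ≤ D := by nlinarith
  refine ⟨max 1 ((2 * D / ε) ^ 2 * 4), by positivity, ?_⟩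
  intro T hT n hn
  have hT1 : 1 ≤ T := (le_max_left _ _).trans hT
  have hT2 : (2 * D / ε) ^ 2 * 4 ≤ T := (le_max_right _ _).trans hT
  obtain ⟨v, hv1, hv2⟩ : ∃ v : ℤ, T ≤ v ∧ (v : ℝ) < T + 1 := ⟨⌈T⌉, Int.le_ceil T, Int.ceil_lt_add_one T⟩
  have hX0 : 0 ≤ (v : ℝ) ^ 2 - T ^ 2 := by nlinarith
  have hX1 : (v : ℝ) ^ 2 - T ^ 2 ≤ 3 * T := by nlinarith
  set X : ℝ := (v : ℝ) ^ 2 - T ^ 2 with hX
  obtain ⟨l, hl1, hl2⟩ : ∃ l : ℤ, (l : ℝ) ≤ Real.sqrt X ∧ Real.sqrt X < l + 1 :=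
    ⟨⌊Real.sqrt X⌋, Int.floor_le _, Int.lt_floor_add_one _⟩
  have hl0 : (0 : ℝ) ≤ l := by
    have h1 : (0 : ℝ) ≤ Real.sqrt X := Real.sqrt_nonneg X
    have h2 : (-1 : ℝ) < l := by linarith
    have h3 : (-1 : ℤ) < l := by exact_mod_cast h2
    have h4 : (0 : ℤ) ≤ l := by omega
    exact_mod_cast h4
  have hsq : Real.sqrt X ^ 2 = X := Real.sq_sqrt hX0
  have hs0 : 0 ≤ Real.sqrt X := Real.sqrt_nonneg X
  -- sqrt X ≤ 2 sqrt T
  have hsT : Real.sqrt X ≤ 2 * Real.sqrt T := by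
    rw [show (2 : ℝ) * Real.sqrt T = Real.sqrt (4 * T) by
      rw [Real.sqrt_mul (by norm_num), show (4 : ℝ) = 2 ^ 2 by norm_num, Real.sqrt_sq (by norm_num)]]
    exact Real.sqrt_le_sqrt (by linarith)
  have hsTT : Real.sqrt T ^ 2 = T := Real.sq_sqrt (by linarith)
  have hsT1 : 1 ≤ Real.sqrt T := by
    rw [show (1 : ℝ) = Real.sqrt 1 by simp]
    exact Real.sqrt_le_sqrt hT1
  have hkey : 2 * D * Real.sqrt T ≤ ε * T := by
    -- sqrt T ≥ 2 D / ε * 2
    have h1 : 2 * D / ε * 2 ≤ Real.sqrt T := by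
      apply Real.le_sqrt_of_sq_le
      calc (2 * D / ε * 2) ^ 2 = (2 * D / ε) ^ 2 * 4 := by ring
        _ ≤ T := hT2
    have h2 : 2 * D ≤ ε * Real.sqrt T := by
      have h3 : 2 * D / ε ≤ Real.sqrt T := by
        have : 0 ≤ 2 * D / ε := by positivity
        linarith
      rw [div_le_iff₀ hε] at h3
      linarith
    calc 2 * D * Real.sqrt T ≤ ε * Real.sqrt T * Real.sqrt T :=
          mul_le_mul_of_nonneg_right h2 (Real.sqrt_nonneg T)
      _ = ε * T := by rw [mul_assoc, ← sq, hsTT]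
  have hlT : (l : ℝ) ≤ 2 * Real.sqrt T := hl1.trans hsT
  refine ⟨a * (v + l), b * (v - l), ?_, ?_, ?_⟩
  · push_cast
    rw [show (a : ℝ) * (v + l) - a * T = a * ((v - T) + l) by ring, abs_of_nonneg (by
      apply mul_nonneg (by linarith); linarith)]
    have h1 : (a : ℝ) * ((v - T) + l) ≤ a * (1 + 2 * Real.sqrt T) :=
      mul_le_mul_of_nonneg_left (by linarith) (by linarith)
    have h2 : (a : ℝ) * (1 + 2 * Real.sqrt T) ≤ D * Real.sqrt T := by
      have e1 : (a : ℝ) * (1 + 2 * Real.sqrt T) ≤ a * (3 * Real.sqrt T) :=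
        mul_le_mul_of_nonneg_left (by linarith) (by linarith)
      have e2 : (a : ℝ) * 3 ≤ a * b * 4 := by nlinarith
      have e3 : (a : ℝ) * 3 * Real.sqrt T ≤ a * b * 4 * Real.sqrt T :=
        mul_le_mul_of_nonneg_right e2 (Real.sqrt_nonneg T)
      rw [hD]; linarith
    have h3 : 0 ≤ D * Real.sqrt T := by positivity
    linarith
  · push_cast
    rw [show (b : ℝ) * (v - l) - b * T = b * ((v - T) - l) by ring, abs_mul,
      abs_of_nonneg (show (0 : ℝ) ≤ b by linarith)]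
    have h0 : |((v : ℝ) - T) - l| ≤ 1 + 2 * Real.sqrt T := by
      rw [abs_le]; constructor <;> linarith
    have h1 : (b : ℝ) * |((v : ℝ) - T) - l| ≤ b * (1 + 2 * Real.sqrt T) :=
      mul_le_mul_of_nonneg_left h0 (by linarith)
    have h2 : (b : ℝ) * (1 + 2 * Real.sqrt T) ≤ D * Real.sqrt T := by
      have e1 : (b : ℝ) * (1 + 2 * Real.sqrt T) ≤ b * (3 * Real.sqrt T) :=
        mul_le_mul_of_nonneg_left (by linarith) (by linarith)
      have e2 : (b : ℝ) * 3 ≤ a * b * 4 := by nlinarith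
      have e3 : (b : ℝ) * 3 * Real.sqrt T ≤ a * b * 4 * Real.sqrt T :=
        mul_le_mul_of_nonneg_right e2 (Real.sqrt_nonneg T)
      rw [hD]; linarith
    have h3 : 0 ≤ D * Real.sqrt T := by positivity
    linarith
  · push_cast
    rw [hn, show (a : ℝ) * b * T ^ 2 - b * (v - l) * (a * (v + l)) =
      -((a : ℝ) * b * (X - l ^ 2)) by rw [hX]; ring, abs_neg, abs_of_nonneg]
    · have h1 : X - (l : ℝ) ^ 2 ≤ 2 * Real.sqrt X := by
        have : (Real.sqrt X - l) * (Real.sqrt X + l) ≤ 1 * (Real.sqrt X + l) :=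
          mul_le_mul_of_nonneg_right (by linarith) (by linarith)
        nlinarith
      have h2 : X - (l : ℝ) ^ 2 ≤ 4 * Real.sqrt T := by linarith
      have h3 : (a : ℝ) * b * (X - l ^ 2) ≤ a * b * (4 * Real.sqrt T) :=
        mul_le_mul_of_nonneg_left h2 (by positivity)
      have h4 : (a : ℝ) * b * (4 * Real.sqrt T) = D * Real.sqrt T := by rw [hD]; ring
      nlinarith
    · apply mul_nonneg (by positivity)
      have : (l : ℝ) ^ 2 ≤ Real.sqrt X ^ 2 := pow_le_pow_left₀ hl0 hl1 2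
      linarith

lemma good_two (ν : ℕ → ℕ) (hν : ∀ i, 0 < ν i) (ε : ℝ) (hε : 0 < ε) :
    ∃ T0 : ℝ, 0 < T0 ∧ ∀ T : ℝ, T0 ≤ T → ∀ n : ℕ,
      (n : ℝ) = (∏ i ∈ range 2, (ν i : ℝ)) * T ^ 2 → Good 2 ν ε T n := by
  obtain ⟨T0, hT0, h⟩ := base_two (ν 0) (ν 1) (hν 0) (hν 1) ε hε
  refine ⟨max T0 (1 / ε), lt_max_of_lt_left hT0, ?_⟩
  intro T hT n hn
  obtain ⟨u, v, h1, h2, h3⟩ := h T ((le_max_left _ _).trans hT) n (by
    rw [hn]; simp [Finset.prod_range_succ])
  have hT1 : 1 ≤ ε * T := by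
    have : 1 / ε ≤ T := (le_max_right _ _).trans hT
    rw [div_le_iff₀ hε] at this
    linarith
  refine ⟨fun i j => if i = 0 then (if j = 0 then u else -1) else
    (if j = 0 then (n : ℤ) - v * u else v), fun j => if j = 0 then 1 else u, by simp, by simp,
    ?_, ?_, ?_⟩
  · intro i hi
    have : i = 0 := by omega
    subst this
    simp [Finset.sum_range_succ]
  · simp [Finset.sum_range_succ]
  · intro i hi j hj
    interval_cases i <;> interval_cases j
    · simpa using h1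
    · simpa using hT1
    · simpa using h3
    · simpa using h2


lemma exists_T' (k : ℕ) (P b η T : ℝ) (hP : 1 ≤ P) (hb : 1 ≤ b) (hη : 0 < η) (hη1 : η ≤ 1 / 6)
    (hT : 1 ≤ η * T) (n u : ℕ) (hn : (n : ℝ) = P * b * T ^ (k + 3)) (hu1 : (b + η) * T ≤ u)
    (hu2 : (u : ℝ) < (b + η) * T + 1) :
    ∃ T' : ℝ, 0 ≤ T' ∧ T' ≤ T ∧ (1 - 3 * η) * T ≤ T' ∧ ((n / u : ℕ) : ℝ) = P * T' ^ (k + 2) := by
  have hT0 : 0 < T := by
    by_contra h
    push Not at h
    nlinarith
  have hT1 : 1 ≤ T := by nlinarith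
  have hu0 : (0 : ℝ) < u := lt_of_lt_of_le (by positivity) hu1
  have hupos : 0 < u := by exact_mod_cast hu0
  have hn1 : ((n / u : ℕ) : ℝ) ≤ (n : ℝ) / u := Nat.cast_div_le
  have hn2 : (n : ℝ) / u - 1 ≤ ((n / u : ℕ) : ℝ) := by
    have h1 : n < u * (n / u + 1) := Nat.lt_mul_div_succ n hupos
    have h2 : (n : ℝ) < u * ((n / u : ℕ) + 1) := by exact_mod_cast h1
    rw [sub_le_iff_le_add, div_le_iff₀ hu0]
    linarith
  set n' : ℝ := ((n / u : ℕ) : ℝ) with hn'
  have hn'0 : 0 ≤ n' := by rw [hn']; positivity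
  have hP0 : 0 < P := by linarith
  refine ⟨(n' / P) ^ ((1 : ℝ) / ((k + 2 : ℕ) : ℝ)), by positivity, ?_, ?_, ?_⟩
  · have hpow : ((n' / P) ^ ((1 : ℝ) / ((k + 2 : ℕ) : ℝ))) ^ (k + 2) = n' / P := by
      rw [one_div]
      exact Real.rpow_inv_natCast_pow (by positivity) (by omega)
    have h1 : n' / P ≤ T ^ (k + 2) := by
      rw [div_le_iff₀ hP0]
      refine hn1.trans ?_
      rw [div_le_iff₀ hu0, hn]
      have h2 : T ^ (k + 2) * P * ((b + η) * T) ≤ T ^ (k + 2) * P * u :=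
        mul_le_mul_of_nonneg_left hu1 (by positivity)
      have h3 : P * b * T ^ (k + 3) ≤ T ^ (k + 2) * P * ((b + η) * T) := by
        have : T ^ (k + 2) * P * ((b + η) * T) = P * b * T ^ (k + 3) + P * η * T ^ (k + 3) := by ring
        rw [this]
        have : 0 ≤ P * η * T ^ (k + 3) := by positivity
        linarith
      linarith
    rw [← hpow] at h1
    exact (pow_le_pow_iff_left₀ (by positivity) hT0.le (by omega)).1 h1
  · have hpow : ((n' / P) ^ ((1 : ℝ) / ((k + 2 : ℕ) : ℝ))) ^ (k + 2) = n' / P := by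
      rw [one_div]
      exact Real.rpow_inv_natCast_pow (by positivity) (by omega)
    have h3 : 0 ≤ 1 - 3 * η := by linarith
    have h0 : (1 - 3 * η) * T ^ (k + 2) ≤ n' / P := by
      rw [le_div_iff₀ hP0]
      refine le_trans ?_ hn2
      rw [le_sub_iff_add_le, le_div_iff₀ hu0, hn]
      -- ((1-3η) T^(k+2) P + 1) u ≤ P b T^(k+3)
      have hu3 : (u : ℝ) ≤ (b + 2 * η) * T := by nlinarith
      have hTp : T ≤ T ^ (k + 2) := by
        calc T = T ^ 1 := (pow_one T).symm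
          _ ≤ T ^ (k + 2) := pow_le_pow_right₀ hT1 (by omega)
      have h5 : 1 ≤ η * (T ^ (k + 2) * P) := by
        have : T * 1 ≤ T ^ (k + 2) * P := mul_le_mul hTp hP (by norm_num) (by positivity)
        nlinarith
      have h6 : (1 - 3 * η) * T ^ (k + 2) * P + 1 ≤ (1 - 2 * η) * (T ^ (k + 2) * P) := by
        have e : (1 - 2 * η) * (T ^ (k + 2) * P) = (1 - 3 * η) * T ^ (k + 2) * P + η * (T ^ (k + 2) * P) := by
          ring
        rw [e]; linarith
      have h7 : ((1 - 3 * η) * T ^ (k + 2) * P + 1) * u ≤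
          ((1 - 2 * η) * (T ^ (k + 2) * P)) * ((b + 2 * η) * T) :=
        mul_le_mul h6 hu3 hu0.le (by
          have : 0 ≤ 1 - 2 * η := by linarith
          positivity)
      refine h7.trans ?_
      have h8 : (1 - 2 * η) * (b + 2 * η) ≤ b := by nlinarith
      calc ((1 - 2 * η) * (T ^ (k + 2) * P)) * ((b + 2 * η) * T)
          = ((1 - 2 * η) * (b + 2 * η)) * (P * T ^ (k + 3)) := by ring
        _ ≤ b * (P * T ^ (k + 3)) := mul_le_mul_of_nonneg_right h8 (by positivity)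
        _ = P * b * T ^ (k + 3) := by ring
    have h1 : ((1 - 3 * η) * T) ^ (k + 2) ≤ n' / P := by
      refine le_trans ?_ h0
      rw [mul_pow]
      apply mul_le_mul_of_nonneg_right _ (by positivity)
      calc (1 - 3 * η) ^ (k + 2) ≤ (1 - 3 * η) ^ 1 :=
            pow_le_pow_of_le_one h3 (by linarith) (by omega)
        _ = 1 - 3 * η := pow_one _
    rw [← hpow] at h1
    exact (pow_le_pow_iff_left₀ (by positivity) (by positivity) (by omega)).1 h1
  · have hpow : ((n' / P) ^ ((1 : ℝ) / ((k + 2 : ℕ) : ℝ))) ^ (k + 2) = n' / P := by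
      rw [one_div]
      exact Real.rpow_inv_natCast_pow (by positivity) (by omega)
    rw [hpow]
    field_simp

lemma shift (u1 u a b R0 : ℤ) (hK : 0 < a * u - b * u1) (hu1 : 0 < u1) :
    ∃ j : ℤ, 0 ≤ j ∧ (a * u - b * u1) * j ≤ u1 + (a * u - b * u1) ∧
      ∃ β1 β2 : ℤ, 0 ≤ β1 ∧ β1 < a * u - b * u1 ∧ β2 = R0 / u1 + 1 + b * j ∧
        R0 + u * (a * j) = β1 + β2 * u1 := by
  set K := a * u - b * u1 with hKdef
  have hρ0 : 0 ≤ R0 % u1 := Int.emod_nonneg _ hu1.ne'
  have hρ1 : R0 % u1 < u1 := Int.emod_lt_of_pos _ hu1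
  have hdiv : u1 * (R0 / u1) + R0 % u1 = R0 := Int.mul_ediv_add_emod R0 u1
  set ρ := R0 % u1 with hρ
  have e1 : K * ((u1 - ρ + K - 1) / K) + (u1 - ρ + K - 1) % K = u1 - ρ + K - 1 :=
    Int.mul_ediv_add_emod _ _
  have e2 : 0 ≤ (u1 - ρ + K - 1) % K := Int.emod_nonneg _ hK.ne'
  have e3 : (u1 - ρ + K - 1) % K < K := Int.emod_lt_of_pos _ hK
  refine ⟨(u1 - ρ + K - 1) / K, Int.ediv_nonneg (by omega) hK.le, by omega,
    ρ + K * ((u1 - ρ + K - 1) / K) - u1, R0 / u1 + 1 + b * ((u1 - ρ + K - 1) / K), by omega,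
    by omega, rfl, ?_⟩
  set j := (u1 - ρ + K - 1) / K with hj
  have : u * (a * j) = K * j + b * j * u1 := by rw [hKdef]; ring
  rw [this]
  linear_combination -hdiv


lemma assemble (k : ℕ) (ν : ℕ → ℕ) (ε T : ℝ) (N : ℕ → ℕ → ℤ) (x : ℕ → ℤ) (n : ℕ)
    (n' u J R0 β1 β2 : ℤ) (hx0 : x 0 = 1) (hx1 : x 1 = N 0 0)
    (hrow : ∀ i, i + 1 < k + 2 → ∑ j ∈ range (k + 2), N i j * x j = 0)
    (hlast : ∑ j ∈ range (k + 2), N (k + 1) j * x j = n')
    (hndiv : (n : ℤ) = u * n' + R0) (heq : R0 + u * J = β1 + β2 * N 0 0)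
    (hclose : ∀ i < k + 2, ∀ j < k + 2,
      |(N i j : ℝ) - (if i = j then (ν i : ℝ) * T else 0)| ≤ ε * T / 2)
    (hJ : |(J : ℝ)| ≤ ε * T / 2) (hT1 : 1 ≤ ε * T)
    (hu : |(u : ℝ) - ν (k + 2) * T| ≤ ε * T) (hβ1 : |(β1 : ℝ)| ≤ ε * T)
    (hβ2 : |(β2 : ℝ)| ≤ ε * T) : Good (k + 3) ν ε T n := by
  have hεT : 0 ≤ ε * T := by linarith
  refine ⟨fun i j' => if i < k + 2 then
      (if j' < k + 2 then (if i = k + 1 ∧ j' = 0 then N i j' - J else N i j')
        else (if i = k + 1 then -1 else 0))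
      else (if j' = 0 then β1 else if j' = 1 then β2 else if j' = k + 2 then u else 0),
    fun j' => if j' < k + 2 then x j' else n' - J, by simp [hx0], ?_, ?_, ?_, ?_⟩
  · have : (1 : ℕ) < k + 2 := by omega
    simp [hx1]
  · intro i hi
    have hi2 : i < k + 2 := by omega
    rw [sum_range_succ]
    by_cases hik : i = k + 1
    · subst hik
      rw [sum_congr rfl (g := fun j' => N (k + 1) j' * x j' - (if j' = 0 then J else 0))]
      · rw [sum_sub_distrib, hlast, sum_ite_eq' (range (k + 2)) 0]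
        simp
      · intro j' hj'
        rw [mem_range] at hj'
        by_cases h0 : j' = 0
        · subst h0
          simp [hx0]
        · simp [h0, hj']
    · have hr := hrow i (by omega)
      rw [sum_congr rfl (g := fun j' => N i j' * x j')]
      · rw [hr]; simp [hi2, hik]
      · intro j' hj'
        rw [mem_range] at hj'
        simp [hi2, hj', hik]
  · have e0 : ¬ (k + 3 - 1 < k + 2) := by omega
    simp only [e0, if_false]
    rw [sum_range_succ, sum_range_succ', sum_range_succ']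
    have e1 : ∑ t ∈ range k, (if t + 1 + 1 = 0 then β1 else if t + 1 + 1 = 1 then β2 else
        if t + 1 + 1 = k + 2 then u else 0) *
        (if t + 1 + 1 < k + 2 then x (t + 1 + 1) else n' - J) = 0 := by
      apply sum_eq_zero
      intro t ht
      rw [mem_range] at ht
      have h1 : ¬ (t + 1 + 1 = k + 2) := by omega
      have h2 : ¬ (t + 1 + 1 = 0) := by omega
      have h3 : ¬ (t + 1 + 1 = 1) := by omega
      rw [if_neg h2, if_neg h3, if_neg h1, zero_mul]
    rw [e1]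
    have e2 : ¬ (k + 2 = 0) := by omega
    have e3 : ¬ (k + 2 = 1) := by omega
    simp [hx0, hx1]
    rw [hndiv]
    linear_combination -heq
  · intro i hi j' hj'
    by_cases hi2 : i < k + 2
    · by_cases hj2 : j' < k + 2
      · have hN := hclose i hi2 j' hj2
        by_cases hs : i = k + 1 ∧ j' = 0
        · simp only [hi2, hj2, if_true]
          rw [if_pos hs]
          obtain ⟨hs1, hs2⟩ := hs
          subst hs1 hs2
          have e : ¬ (k + 1 = 0) := by omega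
          simp only [e, if_false] at hN ⊢
          push_cast
          have h5 : |(N (k + 1) 0 : ℝ) - J - 0| ≤ |(N (k + 1) 0 : ℝ) - 0| + |(J : ℝ)| := by
            have : (N (k + 1) 0 : ℝ) - J - 0 = ((N (k + 1) 0 : ℝ) - 0) + (-J) := by ring
            rw [this]
            refine (abs_add_le _ _).trans ?_
            rw [abs_neg]
          linarith
        · simp only [hi2, hj2, if_true]
          rw [if_neg hs]
          refine hN.trans ?_
          linarith
      · have hj3 : j' = k + 2 := by omega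
        subst hj3
        have hij : ¬ (i = k + 2) := by omega
        simp only [hi2, hj2, hij, if_true, if_false]
        by_cases hik : i = k + 1
        · simp [hik]; linarith
        · simp [hik]; positivity
    · have hi3 : i = k + 2 := by omega
      subst hi3
      simp only [hi2, if_false]
      by_cases h0 : j' = 0
      · subst h0
        have e : ¬ (k + 2 = 0) := by omega
        simp only [e, if_false, if_true]
        rw [sub_zero]; exact hβ1
      · by_cases h1 : j' = 1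
        · subst h1
          have e : ¬ (k + 2 = 1) := by omega
          simp only [e, if_false, if_true, h0]
          rw [sub_zero]; exact hβ2
        · by_cases h2 : j' = k + 2
          · subst h2
            simp only [h0, h1, if_true, if_false]
            exact hu
          · have h2' : ¬ (k + 2 = j') := fun h => h2 h.symm
            simp only [h0, h1, h2, h2', if_false]
            simp; positivity

lemma good_step (k : ℕ) (ν : ℕ → ℕ) (hν : ∀ i, 0 < ν i)
    (IH : ∀ ε : ℝ, 0 < ε → ∃ T0 : ℝ, 0 < T0 ∧ ∀ T : ℝ, T0 ≤ T → ∀ n : ℕ,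
      (n : ℝ) = (∏ i ∈ range (k + 2), (ν i : ℝ)) * T ^ (k + 2) → Good (k + 2) ν ε T n)
    (ε : ℝ) (hε : 0 < ε) :
    ∃ T0 : ℝ, 0 < T0 ∧ ∀ T : ℝ, T0 ≤ T → ∀ n : ℕ,
      (n : ℝ) = (∏ i ∈ range (k + 3), (ν i : ℝ)) * T ^ (k + 3) → Good (k + 3) ν ε T n := by
  obtain ⟨V, hV1, hV⟩ : ∃ V : ℝ, 1 ≤ V ∧ ∀ i < k + 3, (ν i : ℝ) ≤ V := by
    refine ⟨∑ i ∈ range (k + 3), (ν i : ℝ), ?_, ?_⟩
    · calc (1 : ℝ) ≤ ν 0 := by exact_mod_cast hν 0
        _ ≤ _ := single_le_sum (f := fun i => (ν i : ℝ)) (fun i _ => by positivity)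
          (mem_range.2 (by omega))
    · intro i hi
      exact single_le_sum (f := fun i => (ν i : ℝ)) (fun i _ => by positivity) (mem_range.2 hi)
  obtain ⟨δ, hδ0, hδ1, hδε⟩ : ∃ δ : ℝ, 0 < δ ∧ δ ≤ 1 ∧ δ ≤ ε :=
    ⟨min 1 ε, by positivity, min_le_left _ _, min_le_right _ _⟩
  set η : ℝ := δ / (12 * V ^ 2) with hη
  have hη0 : 0 < η := by positivity
  have hηV : η * (12 * V ^ 2) = δ := by rw [hη]; field_simp
  have hV2 : 1 ≤ V ^ 2 := one_le_pow₀ hV1
  have hη1 : η ≤ 1 / 12 := by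
    have : η * 12 ≤ η * (12 * V ^ 2) := mul_le_mul_of_nonneg_left (by linarith) hη0.le
    linarith
  have hηV1 : 12 * V * η ≤ δ := by
    have h1 : V * 1 ≤ V * V := mul_le_mul_of_nonneg_left hV1 (by linarith)
    have : η * (12 * V) ≤ η * (12 * V ^ 2) := mul_le_mul_of_nonneg_left (by linarith) hη0.le
    linarith
  have h12η : 12 * η ≤ δ := by
    have : 1 * (12 * η) ≤ V * (12 * η) := mul_le_mul_of_nonneg_right hV1 (by positivity)
    linarith
  set ε' : ℝ := η / (2 * V) with hε'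
  have hε'0 : 0 < ε' := by positivity
  have hε'V : 2 * V * ε' = η := by rw [hε']; field_simp
  have hε'1 : 2 * ε' ≤ η := by
    have : 1 * ε' ≤ V * ε' := mul_le_mul_of_nonneg_right hV1 hε'0.le
    linarith
  obtain ⟨T0', hT0', hIH⟩ := IH ε' hε'0
  refine ⟨max (1 / η) (max (2 * T0') (28 * V / (η * ε))), lt_max_of_lt_left (by positivity), ?_⟩
  intro T hT n hn
  have hTη : 1 ≤ η * T := by
    have : 1 / η ≤ T := (le_max_left _ _).trans hT
    rw [div_le_iff₀ hη0] at this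
    linarith
  have hTT0 : 2 * T0' ≤ T := ((le_max_left _ _).trans (le_max_right _ _)).trans hT
  have hT28 : 28 * V / η ≤ ε * T := by
    have : 28 * V / (η * ε) ≤ T := ((le_max_right _ _).trans (le_max_right _ _)).trans hT
    rw [div_le_iff₀ (by positivity)] at this
    rw [div_le_iff₀ hη0]
    linarith
  have hTpos : 0 < T := by linarith
  set a : ℕ := ν 0 with ha
  set b : ℕ := ν (k + 2) with hb
  have ha1 : (1 : ℝ) ≤ a := by exact_mod_cast hν 0
  have hb1 : (1 : ℝ) ≤ b := by exact_mod_cast hν (k + 2)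
  have haV : (a : ℝ) ≤ V := hV 0 (by omega)
  have hbV : (b : ℝ) ≤ V := hV (k + 2) (by omega)
  have hP1 : (1 : ℝ) ≤ ∏ i ∈ range (k + 2), (ν i : ℝ) := by
    have : (1 : ℝ) = ∏ i ∈ range (k + 2), (1 : ℝ) := by simp
    rw [this]
    apply prod_le_prod
    · intros; norm_num
    · intro i _; exact_mod_cast hν i
  set u : ℕ := ⌈((b : ℝ) + η) * T⌉₊ with hu
  have hu1 : ((b : ℝ) + η) * T ≤ u := Nat.le_ceil _
  have hu2 : (u : ℝ) < ((b : ℝ) + η) * T + 1 := Nat.ceil_lt_add_one (by positivity)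
  have hn2 : (n : ℝ) = (∏ i ∈ range (k + 2), (ν i : ℝ)) * b * T ^ (k + 3) := by
    rw [hn, prod_range_succ]
  obtain ⟨T', hT'0, hT'T, hT'l, hT'n⟩ := exists_T' k _ b η T hP1 hb1 hη0 (by linarith) hTη n u hn2
    hu1 hu2
  have hT'half : T / 2 ≤ T' := by
    refine le_trans ?_ hT'l
    have : η * T ≤ 1 / 12 * T := mul_le_mul_of_nonneg_right hη1 hTpos.le
    linarith
  obtain ⟨N, x, hx0, hx1, hrow, hlast, hclose⟩ := hIH T' (by linarith) (n / u) hT'n
  have hu0 : 0 < u := by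
    have : (0 : ℝ) < u := lt_of_lt_of_le (by positivity) hu1
    exact_mod_cast this
  -- u1
  set u1 : ℤ := N 0 0 with hu1def
  have hc00 : |(u1 : ℝ) - a * T'| ≤ ε' * T' := by
    have := hclose 0 (by omega) 0 (by omega)
    simpa using this
  rw [abs_le] at hc00
  have hεT' : ε' * T' ≤ ε' * T := mul_le_mul_of_nonneg_left hT'T hε'0.le
  have hu1up : (u1 : ℝ) ≤ a * T + ε' * T := by
    have : (a : ℝ) * T' ≤ a * T := mul_le_mul_of_nonneg_left hT'T (by linarith)
    linarith [hc00.2]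
  have hu1up' : (u1 : ℝ) ≤ a * T' + ε' * T := by linarith [hc00.2]
  have hu1lo : (a : ℝ) * T' - ε' * T ≤ u1 := by linarith [hc00.1]
  have hηT12 : η * T ≤ 1 / 12 * T := mul_le_mul_of_nonneg_right hη1 hTpos.le
  have hε'T : 2 * (ε' * T) ≤ η * T := by
    have := mul_le_mul_of_nonneg_right hε'1 hTpos.le
    linarith
  have hε'VT : 2 * V * (ε' * T) = η * T := by rw [← mul_assoc, hε'V]
  have hu1lo2 : T / 4 ≤ u1 := by
    have : 1 * T' ≤ a * T' := mul_le_mul_of_nonneg_right ha1 hT'0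
    linarith
  have hu1pos : 0 < u1 := by
    have : (0 : ℝ) < u1 := by linarith
    exact_mod_cast this
  -- K
  have hKreal : (((a : ℤ) * u - b * u1 : ℤ) : ℝ) = a * u - b * u1 := by push_cast; ring
  have hKlo : (a : ℝ) * η * T / 2 ≤ (a : ℝ) * u - b * u1 := by
    have e1 : (a : ℝ) * (((b : ℝ) + η) * T) ≤ a * u := mul_le_mul_of_nonneg_left hu1 (by linarith)
    have e2 : (b : ℝ) * u1 ≤ b * (a * T + ε' * T) := mul_le_mul_of_nonneg_left hu1up (by linarith)
    have e3 : (b : ℝ) * (ε' * T) ≤ V * (ε' * T) := mul_le_mul_of_nonneg_right hbV (by positivity)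
    have e4 : 1 * (η * T) ≤ a * (η * T) := mul_le_mul_of_nonneg_right ha1 (by positivity)
    linarith
  have hKup : (a : ℝ) * u - b * u1 ≤ 6 * V ^ 2 * (η * T) := by
    have e1 : (a : ℝ) * u ≤ a * (((b : ℝ) + η) * T + 1) := mul_le_mul_of_nonneg_left hu2.le (by linarith)
    have e2 : (b : ℝ) * (a * T' - ε' * T) ≤ b * u1 := mul_le_mul_of_nonneg_left hu1lo (by linarith)
    have e3 : (b : ℝ) * (ε' * T) ≤ V * (ε' * T) := mul_le_mul_of_nonneg_right hbV (by positivity)
    have e5 : (a : ℝ) * b * ((1 - 3 * η) * T) ≤ a * b * T' := mul_le_mul_of_nonneg_left hT'l (by positivity)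
    have e6 : (a : ℝ) * b ≤ V ^ 2 := by
      rw [sq]; exact mul_le_mul haV hbV (by linarith) (by linarith)
    have e61 : (a : ℝ) ≤ V ^ 2 := by
      have : V * 1 ≤ V * V := mul_le_mul_of_nonneg_left hV1 (by linarith)
      rw [sq]; linarith
    have e7 : (a : ℝ) * b * (η * T) ≤ V ^ 2 * (η * T) := mul_le_mul_of_nonneg_right e6 (by positivity)
    have e8 : (a : ℝ) * (η * T) ≤ V ^ 2 * (η * T) :=
      mul_le_mul_of_nonneg_right e61 (by positivity)
    have e9 : (a : ℝ) * 1 ≤ a * (η * T) := mul_le_mul_of_nonneg_left hTη (by linarith)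
    have e10 : 1 * (η * T) ≤ V ^ 2 * (η * T) := mul_le_mul_of_nonneg_right hV2 (by positivity)
    linarith
  have hKup2 : (a : ℝ) * u - b * u1 ≤ ε * T / 2 := by
    have : 6 * V ^ 2 * (η * T) = δ * T / 2 := by
      rw [← hηV]; ring
    have h2 : δ * T ≤ ε * T := mul_le_mul_of_nonneg_right hδε hTpos.le
    linarith
  have hKpos : 0 < (a : ℤ) * u - b * u1 := by
    have : (0 : ℝ) < (((a : ℤ) * u - b * u1 : ℤ) : ℝ) := by
      rw [hKreal]
      refine lt_of_lt_of_le ?_ hKlo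
      positivity
    exact_mod_cast this
  set R0 : ℤ := ((n % u : ℕ) : ℤ) with hR0
  have hR00 : 0 ≤ R0 := by rw [hR0]; positivity
  have hR0u : R0 < u := by rw [hR0]; exact_mod_cast Nat.mod_lt n hu0
  have hndiv : (n : ℤ) = u * ((n / u : ℕ) : ℤ) + R0 := by
    rw [hR0]; exact_mod_cast (Nat.div_add_mod n u).symm
  obtain ⟨j, hj0, hjK, β1, β2, hβ10, hβ1K, hβ2, heq⟩ := shift u1 u a b R0 hKpos hu1pos
  -- bounds on j
  have hjr0 : (0 : ℝ) ≤ j := by exact_mod_cast hj0
  have hjη : (j : ℝ) * η ≤ 5 := by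
    have h1 : ((a : ℝ) * u - b * u1) * j ≤ u1 + ((a : ℝ) * u - b * u1) := by
      have : ((((a : ℤ) * u - b * u1) * j : ℤ) : ℝ) ≤ ((u1 + ((a : ℤ) * u - b * u1) : ℤ) : ℝ) := by
        exact_mod_cast hjK
      push_cast at this
      linarith
    have h2 : ((a : ℝ) * u - b * u1) * (j - 1) ≤ u1 := by linarith
    by_cases hj1 : (j : ℝ) ≤ 1
    · have : (j : ℝ) * η ≤ 1 * η := mul_le_mul_of_nonneg_right hj1 hη0.le
      linarith
    · push Not at hj1
      have h3 : (a : ℝ) * η * T / 2 * (j - 1) ≤ ((a : ℝ) * u - b * u1) * (j - 1) :=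
        mul_le_mul_of_nonneg_right hKlo (by linarith)
      have h4 : (u1 : ℝ) ≤ 2 * (a * T) := by
        have : 1 * T ≤ a * T := mul_le_mul_of_nonneg_right ha1 hTpos.le
        linarith
      have h5 : (a * T) * (η / 2 * (j - 1)) ≤ (a * T) * 2 := by
        calc (a * T) * (η / 2 * (j - 1)) = (a : ℝ) * η * T / 2 * (j - 1) := by ring
          _ ≤ u1 := h3.trans h2
          _ ≤ _ := by linarith
      have h6 : η / 2 * ((j : ℝ) - 1) ≤ 2 := le_of_mul_le_mul_left h5 (by positivity)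
      linarith
  have hq : ((R0 / u1 : ℤ) : ℝ) ≤ 8 * V := by
    have h1 : u1 * (R0 / u1) ≤ R0 := Int.mul_ediv_self_le hu1pos.ne'
    have h2 : (u1 : ℝ) * ((R0 / u1 : ℤ) : ℝ) ≤ R0 := by exact_mod_cast h1
    have h3 : (R0 : ℝ) ≤ u := by exact_mod_cast hR0u.le
    have h4 : (u : ℝ) ≤ 2 * V * T := by
      have h5 : (b : ℝ) * T ≤ V * T := mul_le_mul_of_nonneg_right hbV hTpos.le
      have h6 : 1 * T ≤ V * T := mul_le_mul_of_nonneg_right hV1 hTpos.le
      linarith
    by_contra hcon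
    push Not at hcon
    have h7 : (T / 4) * (8 * V) < u1 * ((R0 / u1 : ℤ) : ℝ) := by
      have h8 : (T / 4) * (8 * V) < (T / 4) * ((R0 / u1 : ℤ) : ℝ) :=
        mul_lt_mul_of_pos_left hcon (by positivity)
      have h9 : (T / 4) * ((R0 / u1 : ℤ) : ℝ) ≤ u1 * ((R0 / u1 : ℤ) : ℝ) :=
        mul_le_mul_of_nonneg_right hu1lo2 (by linarith [mul_nonneg (by norm_num : (0:ℝ) ≤ 8) (by linarith : (0:ℝ) ≤ V)])
      linarith
    linarith
  have hq0 : (0 : ℝ) ≤ ((R0 / u1 : ℤ) : ℝ) := by exact_mod_cast Int.ediv_nonneg hR00 hu1pos.le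
  have hβ2r : (β2 : ℝ) = ((R0 / u1 : ℤ) : ℝ) + 1 + b * j := by rw [hβ2]; push_cast; ring
  have hηinv : 0 < 1 / η := by positivity
  have hj5 : (j : ℝ) ≤ 5 / η := by rw [le_div_iff₀ hη0]; exact hjη
  have hV1η : V ≤ V / η := by
    rw [le_div_iff₀ hη0]
    have : V * η ≤ V * 1 := mul_le_mul_of_nonneg_left (by linarith) (by linarith)
    linarith
  have hbj : (b : ℝ) * j ≤ 5 * V / η := by
    calc (b : ℝ) * j ≤ V * (5 / η) := mul_le_mul hbV hj5 hjr0 (by linarith)
      _ = 5 * V / η := by ring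
  have haj : (a : ℝ) * j ≤ 5 * V / η := by
    calc (a : ℝ) * j ≤ V * (5 / η) := mul_le_mul haV hj5 hjr0 (by linarith)
      _ = 5 * V / η := by ring
  have hβ2up : (β2 : ℝ) ≤ 14 * V / η := by
    rw [hβ2r]
    have e1 : 14 * V / η = 9 * (V / η) + 5 * V / η := by ring
    rw [e1]
    linarith
  have hβ20 : (0 : ℝ) ≤ β2 := by
    rw [hβ2r]; positivity
  have hVη2 : 5 * V / η ≤ ε * T / 2 := by
    have : 28 * V / η = 28 * (V / η) := by ring
    have e : 5 * V / η = 5 * (V / η) := by ring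
    have : 0 ≤ V / η := by positivity
    rw [e]; linarith
  have hVη3 : 14 * V / η ≤ ε * T := by
    have e1 : 28 * V / η = 28 * (V / η) := by ring
    have e : 14 * V / η = 14 * (V / η) := by ring
    have : 0 ≤ V / η := by positivity
    rw [e]; linarith
  have hδT : δ * T ≤ ε * T := mul_le_mul_of_nonneg_right hδε hTpos.le
  have hε'T2 : ε' * T ≤ ε * T / 4 := by
    -- ε' ≤ η/2 ≤ δ/24
    have h2 : 12 * η * T ≤ δ * T := mul_le_mul_of_nonneg_right h12η hTpos.le
    linarith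
  have hT1 : 1 ≤ ε * T := by
    have h1 : 12 * η * T ≤ δ * T := mul_le_mul_of_nonneg_right h12η hTpos.le
    linarith
  have hlast' : ∑ j ∈ range (k + 2), N (k + 1) j * x j = ((n / u : ℕ) : ℤ) := hlast
  refine assemble k ν ε T N x n ((n / u : ℕ) : ℤ) u (a * j) R0 β1 β2 hx0 hx1 hrow hlast' hndiv heq
    ?_ ?_ hT1 ?_ ?_ ?_
  · intro i hi2 j' hj2
    have hc := hclose i hi2 j' hj2
    have hdiff : |(if i = j' then (ν i : ℝ) * T' else 0) - (if i = j' then (ν i : ℝ) * T else 0)|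
        ≤ ε * T / 4 := by
      by_cases hij : i = j'
      · simp only [hij, if_true]
        rw [← mul_sub, abs_mul, abs_of_nonneg (by positivity : (0 : ℝ) ≤ ν j'),
          abs_of_nonpos (by linarith)]
        have h1 : (ν j' : ℝ) ≤ V := hV j' (by omega)
        have h2 : -(T' - T) ≤ 3 * (η * T) := by linarith
        have h3 : (ν j' : ℝ) * (-(T' - T)) ≤ V * (3 * (η * T)) :=
          mul_le_mul h1 h2 (by linarith) (by linarith)
        have h4 : 12 * V * η * T ≤ δ * T := mul_le_mul_of_nonneg_right hηV1 hTpos.le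
        linarith
      · simp [hij]; positivity
    have h1 : ε' * T' ≤ ε * T / 4 := hεT'.trans hε'T2
    calc |(N i j' : ℝ) - (if i = j' then (ν i : ℝ) * T else 0)|
        = |((N i j' : ℝ) - (if i = j' then (ν i : ℝ) * T' else 0)) +
          ((if i = j' then (ν i : ℝ) * T' else 0) - (if i = j' then (ν i : ℝ) * T else 0))| := by
          ring_nf
      _ ≤ _ + _ := abs_add_le _ _
      _ ≤ ε * T / 4 + ε * T / 4 := add_le_add (hc.trans h1) hdiff
      _ = ε * T / 2 := by ring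
  · push_cast
    rw [abs_of_nonneg (by positivity)]
    linarith
  · push_cast
    rw [← hb, abs_le]
    have h1 : 0 ≤ η * T := by positivity
    have h2 : 0 ≤ ε * T := by positivity
    constructor
    · linarith
    · have : 12 * η * T ≤ δ * T := mul_le_mul_of_nonneg_right h12η hTpos.le
      linarith
  · have h1 : (0 : ℝ) ≤ β1 := by exact_mod_cast hβ10
    have h2 : (β1 : ℝ) ≤ (a : ℝ) * u - b * u1 := by
      have : (β1 : ℝ) ≤ (((a : ℤ) * u - b * u1 : ℤ) : ℝ) := by exact_mod_cast hβ1K.le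
      rw [hKreal] at this; exact this
    rw [abs_of_nonneg h1]
    have : 0 ≤ ε * T := by positivity
    linarith
  · rw [abs_of_nonneg hβ20]
    linarith

theorem good_all (m : ℕ) (hm : 1 ≤ m) (ν : ℕ → ℕ) (hν : ∀ i, 0 < ν i) (ε : ℝ) (hε : 0 < ε) :
    ∃ T0 : ℝ, 0 < T0 ∧ ∀ T : ℝ, T0 ≤ T → ∀ n : ℕ,
      (n : ℝ) = (∏ i ∈ range m, (ν i : ℝ)) * T ^ m →
      ∃ (N : ℕ → ℕ → ℤ) (x : ℕ → ℤ), x 0 = 1 ∧ (∀ i, i + 1 < m → ∑ j ∈ range m, N i j * x j = 0) ∧
        (∑ j ∈ range m, N (m - 1) j * x j = n) ∧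
        ∀ i < m, ∀ j < m, |(N i j : ℝ) - (if i = j then (ν i : ℝ) * T else 0)| ≤ ε * T := by
  rcases Nat.lt_or_ge m 2 with h | h
  · have hm1 : m = 1 := by omega
    subst hm1
    refine ⟨1, one_pos, ?_⟩
    intro T hT n hn
    refine ⟨fun _ _ => n, fun _ => 1, rfl, by intro i hi; omega, by simp, ?_⟩
    intro i hi j hj
    have hi0 : i = 0 := by omega
    have hj0 : j = 0 := by omega
    subst hi0 hj0
    simp at hn
    simp [hn]
    positivity
  · obtain ⟨k, rfl⟩ : ∃ k, m = k + 2 := ⟨m - 2, by omega⟩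
    have key : ∀ ε : ℝ, 0 < ε → ∃ T0 : ℝ, 0 < T0 ∧ ∀ T : ℝ, T0 ≤ T → ∀ n : ℕ,
        (n : ℝ) = (∏ i ∈ range (k + 2), (ν i : ℝ)) * T ^ (k + 2) → Good (k + 2) ν ε T n := by
      clear h hm
      induction k with
      | zero => exact fun ε hε => good_two ν hν ε hε
      | succ k ih => exact fun ε hε => good_step k ν hν ih ε hε
    obtain ⟨T0, hT0, h0⟩ := key ε hε
    refine ⟨T0, hT0, fun T hT n hn => ?_⟩
    obtain ⟨N, x, hx0, _, h1, h2, h3⟩ := h0 T hT n hn
    exact ⟨N, x, hx0, h1, h2, h3⟩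

end Pool.Agent.Lib.MP_ffcda7_co
end

section

section

set_option autoImplicit false

open Finset

namespace Pool.Agent.Lib.MP_ffcda7_co

lemma smith (m : ℕ) {G : Type*} [AddCommGroup G] [Finite G] (a : Fin m → G)
    (hsurj : ∀ x : G, ∃ z : Fin m → ℤ, ∑ i, z i • a i = x) :
    ∃ (ν : Fin m → ℕ) (f : Module.Basis (Fin m) ℤ (Fin m → ℤ)), (∀ i, 0 < ν i) ∧
      Nat.card G ≤ ∏ i, ν i ∧ ∀ v : Fin m → ℤ, ∑ i, v i • a i = 0 → ∀ i, (ν i : ℤ) ∣ f.repr v i := by
  cases nonempty_fintype G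
  -- the map
  set φ : (Fin m → ℤ) →ₗ[ℤ] G := (Pi.basisFun ℤ (Fin m)).constr ℤ a with hφ
  have hφv : ∀ v, φ v = ∑ i, v i • a i := by
    intro v
    rw [hφ, Module.Basis.constr_apply_fintype]
    simp
  have hfin : Finite ((Fin m → ℤ) ⧸ LinearMap.ker φ) :=
    Finite.of_injective _ (φ.quotKerEquivRange.injective)
  have hrank := (Submodule.finiteQuotient_iff (LinearMap.ker φ)).1 hfin
  obtain ⟨f, α, ab, hab⟩ := Submodule.exists_smith_normal_form_of_rank_eq (Pi.basisFun ℤ (Fin m)) hrank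
  have hα0 : ∀ i, α i ≠ 0 := by
    intro i hi
    have := hab i
    rw [hi, zero_smul] at this
    exact ab.ne_zero i (Subtype.ext this)
  have hker : ∀ i, α i • φ (f i) = 0 := by
    intro i
    have h1 : φ (ab i : Fin m → ℤ) = 0 := (ab i).2
    rw [hab i, map_smul] at h1
    exact h1
  refine ⟨fun i => (α i).natAbs, f, fun i => Int.natAbs_pos.2 (hα0 i), ?_, ?_⟩
  · -- box surjects
    have hcard : Fintype.card G ≤ Fintype.card (∀ i : Fin m, Fin (α i).natAbs) := by
      apply Fintype.card_le_of_surjective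
        (fun g : (∀ i : Fin m, Fin (α i).natAbs) => ∑ i, ((g i : ℕ) : ℤ) • φ (f i))
      intro x
      obtain ⟨z, hz⟩ := hsurj x
      have hpos : ∀ i, 0 < ((α i).natAbs : ℤ) := fun i => by
        exact_mod_cast Int.natAbs_pos.2 (hα0 i)
      refine ⟨fun i => ⟨(f.repr z i % ((α i).natAbs : ℤ)).toNat, ?_⟩, ?_⟩
      · have h1 := Int.emod_nonneg (f.repr z i) (hpos i).ne'
        have h2 := Int.emod_lt_of_pos (f.repr z i) (hpos i)
        omega
      · rw [← hz, ← hφv]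
        conv_rhs => rw [← f.sum_repr z]
        rw [map_sum]
        apply sum_congr rfl
        intro i _
        rw [map_smul]
        simp only
        have h1 := Int.emod_nonneg (f.repr z i) (hpos i).ne'
        rw [Int.toNat_of_nonneg h1]
        have h3 : f.repr z i % ((α i).natAbs : ℤ) = f.repr z i - ((α i).natAbs : ℤ) * (f.repr z i / ((α i).natAbs : ℤ)) := by
          have := Int.mul_ediv_add_emod (f.repr z i) ((α i).natAbs : ℤ)
          linarith
        rw [h3, sub_smul]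
        have h4 : (((α i).natAbs : ℤ) * (f.repr z i / ((α i).natAbs : ℤ))) • φ (f i) = 0 := by
          obtain ⟨w, hw⟩ : α i ∣ ((α i).natAbs : ℤ) := by simp
          generalize (f.repr z i / ((α i).natAbs : ℤ)) = t at *
          rw [hw, show α i * w * t = (w * t) * α i by ring, mul_smul, hker i, smul_zero]
        rw [h4, sub_zero]
    rw [Nat.card_eq_fintype_card]
    simpa using hcard
  · intro v hv i
    have hvk : v ∈ LinearMap.ker φ := by rw [LinearMap.mem_ker, hφv]; exact hv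
    rw [ab.mem_submodule_iff'] at hvk
    obtain ⟨c, hc⟩ := hvk
    have h1 : f.repr v i = α i * c i := by
      rw [hc]
      have : ∑ j, c j • (ab j : Fin m → ℤ) = ∑ j, (α j * c j) • f j := by
        apply sum_congr rfl
        intro j _
        rw [hab j, smul_smul, mul_comm]
      rw [this, f.repr_sum_self]
    rw [h1]
    simp only [Int.natCast_natAbs, abs_dvd]
    exact dvd_mul_right _ _

lemma reduce {m : ℕ} (N : Fin m → Fin m → ℤ)
    (hN : ∀ i, ∑ j ∈ univ.erase i, |N i j| < N i i) (S : Set (Fin m → ℤ)) (hS : S.Nonempty)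
    (h1 : ∀ c ∈ S, ∀ i, (c - N i) ∈ S) (h2 : ∀ c ∈ S, ∀ i, (c + N i) ∈ S) :
    ∃ c ∈ S, ∀ i, |c i| < N i i := by
  obtain ⟨c, hc, hmin⟩ : ∃ c ∈ S, ∀ c' ∈ S, (∑ i, |c i|) ≤ ∑ i, |c' i| := by
    have hne : ∃ k : ℕ, ∃ c ∈ S, (∑ i, |c i|) = k := by
      obtain ⟨c, hc⟩ := hS
      refine ⟨(∑ i, |c i|).toNat, c, hc, ?_⟩
      rw [Int.toNat_of_nonneg]
      exact sum_nonneg fun i _ => abs_nonneg _
    classical
    obtain ⟨c, hc, hck⟩ := Nat.find_spec hne
    refine ⟨c, hc, fun c' hc' => ?_⟩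
    have h3 : Nat.find hne ≤ (∑ i, |c' i|).toNat := Nat.find_min' hne
      ⟨c', hc', by rw [Int.toNat_of_nonneg]; exact sum_nonneg fun i _ => abs_nonneg _⟩
    have h4 : 0 ≤ ∑ i, |c' i| := sum_nonneg fun i _ => abs_nonneg _
    rw [hck]
    omega
  refine ⟨c, hc, fun i => ?_⟩
  by_contra hcon
  push Not at hcon
  have hNi : 0 < N i i := lt_of_le_of_lt (sum_nonneg fun j _ => abs_nonneg _) (hN i)
  have hsplit : ∀ g : Fin m → ℤ, ∑ j, g j = g i + ∑ j ∈ univ.erase i, g j :=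
    fun g => (add_sum_erase univ g (mem_univ i)).symm
  rcases le_abs.1 hcon with h | h
  · -- subtract
    have h3 := hmin _ (h1 c hc i)
    rw [hsplit, hsplit (fun j => |(c - N i) j|)] at h3
    have h4 : ∑ j ∈ univ.erase i, |(c - N i) j| ≤ ∑ j ∈ univ.erase i, |c j| + ∑ j ∈ univ.erase i, |N i j| := by
      rw [← sum_add_distrib]
      exact sum_le_sum fun j _ => abs_sub _ _
    have h5 : |(c - N i) i| = c i - N i i := by
      rw [Pi.sub_apply, abs_of_nonneg (by linarith)]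
    have h6 : |c i| = c i := abs_of_nonneg (by linarith)
    have h7 := hN i
    rw [h5, h6] at h3
    linarith
  · have h3 := hmin _ (h2 c hc i)
    rw [hsplit, hsplit (fun j => |(c + N i) j|)] at h3
    have h4 : ∑ j ∈ univ.erase i, |(c + N i) j| ≤ ∑ j ∈ univ.erase i, |c j| + ∑ j ∈ univ.erase i, |N i j| := by
      rw [← sum_add_distrib]
      exact sum_le_sum fun j _ => abs_add_le _ _
    have h5 : |(c + N i) i| = -(c i + N i i) := by
      rw [Pi.add_apply, abs_of_nonpos (by linarith)]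
    have h6 : |c i| = - c i := abs_of_nonpos (by linarith)
    have h7 := hN i
    rw [h5, h6] at h3
    linarith

end Pool.Agent.Lib.MP_ffcda7_co
end

section

set_option autoImplicit false

open Finset

namespace Pool.Agent.Lib.MP_ffcda7_co

/-- basis given by a family of `m` elements. -/
def FB (G : Type*) [AddCommGroup G] (m s : ℕ) : Prop :=
  ∃ a : Fin m → G, ∀ y : G, ∃ c : Fin m → ℕ, ∑ i, c i ≤ s ∧ ∑ i, (c i : ℤ) • a i = y

lemma FB_of_HasBasis {G : Type} [AddCommGroup G] {m s : ℕ} (h : HasBasis G m s) : FB G m s := by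
  classical
  obtain ⟨A, hA, hb⟩ := h
  obtain ⟨e⟩ : Nonempty (A ↪ Fin m) := Function.Embedding.nonempty_of_card_le (by simpa using hA)
  refine ⟨Function.extend e (fun x => (x : G)) 0, fun y => ?_⟩
  obtain ⟨c, hc1, hc2⟩ := hb y
  refine ⟨Function.extend e (fun x => c x) 0, ?_, ?_⟩
  · rw [← Fintype.sum_of_injective e e.injective (fun x : A => c x)]
    · rw [Finset.sum_coe_sort A c]; exact hc1
    · intro i hi
      rw [Function.extend_apply' _ _ _ (by simpa using hi)]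
      rfl
    · intro i
      rw [e.injective.extend_apply]
  · rw [← Fintype.sum_of_injective e e.injective (fun x : A => (c x : ℤ) • (x : G))]
    · rw [Finset.sum_coe_sort A (fun x => (c x : ℤ) • (x : G)), ← hc2]
      apply sum_congr rfl
      intro x _
      rw [natCast_zsmul]
    · intro i hi
      rw [Function.extend_apply' _ _ _ (by simpa using hi),
        Function.extend_apply' _ _ _ (by simpa using hi)]
      simp
    · intro i
      rw [e.injective.extend_apply, e.injective.extend_apply]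

lemma HasBasis_of_FB {G : Type} [AddCommGroup G] {m s : ℕ} (h : FB G m s) : HasBasis G m s := by
  classical
  obtain ⟨a, ha⟩ := h
  refine ⟨univ.image a, card_image_le.trans (by simp), fun y => ?_⟩
  obtain ⟨c, hc1, hc2⟩ := ha y
  refine ⟨fun b => ∑ i ∈ univ.filter (fun i => a i = b), c i, ?_, ?_⟩
  · rw [sum_fiberwise_of_maps_to (fun i _ => mem_image_of_mem a (mem_univ i))]
    exact hc1
  · rw [← hc2, ← sum_fiberwise_of_maps_to (s := univ) (t := univ.image a) (g := a)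
      (fun i _ => mem_image_of_mem a (mem_univ i))]
    apply sum_congr rfl
    intro b _
    rw [sum_smul]
    apply sum_congr rfl
    intro i hi
    rw [mem_filter] at hi
    rw [hi.2, natCast_zsmul]

lemma hasBasis_iff {G : Type} [AddCommGroup G] {m s : ℕ} : HasBasis G m s ↔ FB G m s :=
  ⟨FB_of_HasBasis, HasBasis_of_FB⟩

lemma FB.mono {G : Type*} [AddCommGroup G] {m s s' : ℕ} (h : FB G m s) (hs : s ≤ s') :
    FB G m s' := by
  obtain ⟨a, ha⟩ := h
  refine ⟨a, fun y => ?_⟩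
  obtain ⟨c, h1, h2⟩ := ha y
  exact ⟨c, h1.trans hs, h2⟩

lemma FB.card_le {G : Type*} [AddCommGroup G] {m s : ℕ} (h : FB G m s) :
    Nat.card G ≤ (s + 1) ^ m := by
  obtain ⟨a, ha⟩ := h
  have hsurj : Function.Surjective
      (fun c : Fin m → Fin (s + 1) => ∑ i, ((c i : ℕ) : ℤ) • a i) := by
    intro y
    obtain ⟨c, h1, h2⟩ := ha y
    refine ⟨fun i => ⟨c i, ?_⟩, h2⟩
    have : c i ≤ ∑ i, c i := single_le_sum (f := c) (fun i _ => Nat.zero_le _) (mem_univ i)
    omega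
  have := Nat.card_le_card_of_surjective _ hsurj
  simpa using this

lemma FB_small {n m s : ℕ} (hn : 1 ≤ n) (hm : 1 ≤ m) (hs : n ≤ s + 1) : FB (ZMod n) m s := by
  have : NeZero n := ⟨by omega⟩
  refine ⟨fun _ => 1, fun y => ?_⟩
  refine ⟨fun i => if i = ⟨0, hm⟩ then y.val else 0, ?_, ?_⟩
  · simp
    have := ZMod.val_lt y
    omega
  · have : ∀ i : Fin m, (((if i = ⟨0, hm⟩ then y.val else 0 : ℕ) : ℕ) : ℤ) • (1 : ZMod n) =
        if i = ⟨0, hm⟩ then y else 0 := by
      intro i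
      split_ifs <;> simp
    rw [sum_congr rfl (fun i _ => this i)]
    simp

lemma FB.prod {G H : Type} [AddCommGroup G] [AddCommGroup H] {m₁ m₂ s₁ s₂ : ℕ}
    (hG : FB G m₁ s₁) (hH : FB H m₂ s₂) : FB (G × H) (m₁ + m₂) (s₁ + s₂) := by
  obtain ⟨a, ha⟩ := hG
  obtain ⟨b, hb⟩ := hH
  refine ⟨Fin.addCases (fun i => (a i, 0)) (fun j => (0, b j)), fun y => ?_⟩
  obtain ⟨c, hc1, hc2⟩ := ha y.1
  obtain ⟨d, hd1, hd2⟩ := hb y.2
  refine ⟨Fin.addCases c d, ?_, ?_⟩
  · rw [Fin.sum_univ_add]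
    simp only [Fin.addCases_left, Fin.addCases_right]
    exact add_le_add hc1 hd1
  · rw [Fin.sum_univ_add]
    simp only [Fin.addCases_left, Fin.addCases_right]
    apply Prod.ext
    · rw [Prod.fst_add, Prod.fst_sum, Prod.fst_sum]
      simp only [Prod.smul_fst, smul_zero, sum_const_zero, add_zero]
      exact hc2
    · rw [Prod.snd_add, Prod.snd_sum, Prod.snd_sum]
      simp only [Prod.smul_snd, smul_zero, sum_const_zero, zero_add]
      exact hd2

lemma f_set_bdd (m s : ℕ) : BddAbove {n | 1 ≤ n ∧ HasBasis (ZMod n) m s} := by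
  refine ⟨(s + 1) ^ m, ?_⟩
  rintro n ⟨hn, h⟩
  have := (FB_of_HasBasis h).card_le
  simpa using this

lemma g_set_bdd (m s : ℕ) : BddAbove {N | ∀ n, 1 ≤ n → n ≤ N → HasBasis (ZMod n) m s} := by
  refine ⟨(s + 1) ^ m, ?_⟩
  intro N hN
  rcases Nat.eq_zero_or_pos N with h0 | h0
  · rw [h0]; exact Nat.zero_le _
  · have := (FB_of_HasBasis (hN N h0 le_rfl)).card_le
    simpa using this

lemma trivial_basis (m s : ℕ) : HasBasis (ZMod 1) m s := by
  refine ⟨∅, by simp, fun x => ⟨fun _ => 0, by simp, ?_⟩⟩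
  exact Subsingleton.elim _ _

lemma f_mem (m s : ℕ) : 1 ≤ f m s ∧ HasBasis (ZMod (f m s)) m s := by
  have hne : {n | 1 ≤ n ∧ HasBasis (ZMod n) m s}.Nonempty := ⟨1, le_rfl, trivial_basis m s⟩
  exact Nat.sSup_mem hne (f_set_bdd m s)

lemma le_f {n m s : ℕ} (hn : 1 ≤ n) (h : HasBasis (ZMod n) m s) : n ≤ f m s :=
  le_csSup (f_set_bdd m s) ⟨hn, h⟩

lemma f_le (m s : ℕ) : f m s ≤ (s + 1) ^ m := by
  have := (FB_of_HasBasis (f_mem m s).2).card_le
  simpa using this

lemma le_g {N m s : ℕ} (h : ∀ n, 1 ≤ n → n ≤ N → HasBasis (ZMod n) m s) : N ≤ g m s :=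
  le_csSup (g_set_bdd m s) h

lemma g_le_f (m s : ℕ) : g m s ≤ f m s := by
  have hne : {N | ∀ n, 1 ≤ n → n ≤ N → HasBasis (ZMod n) m s}.Nonempty :=
    ⟨0, fun n h1 h2 => absurd h2 (by omega)⟩
  have h : ∀ n, 1 ≤ n → n ≤ g m s → HasBasis (ZMod n) m s :=
    Nat.sSup_mem hne (g_set_bdd m s)
  rcases Nat.eq_zero_or_pos (g m s) with h0 | h0
  · rw [h0]; exact Nat.zero_le _
  · exact le_f h0 (h _ h0 le_rfl)

end Pool.Agent.Lib.MP_ffcda7_co
end

section

set_option autoImplicit false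

open Finset

namespace Pool.Agent.Lib.MP_ffcda7_co

lemma diag_dom {m : ℕ} (ν : Fin m → ℕ) (hν : ∀ i, 0 < ν i) (T ε : ℝ) (hT : 0 < T)
    (hmε : (m : ℝ) * ε < 1) (N : Fin m → Fin m → ℤ)
    (hclose : ∀ i j, |(N i j : ℝ) - (if i = j then (ν i : ℝ) * T else 0)| ≤ ε * T) (i : Fin m) :
    ∑ j ∈ univ.erase i, |N i j| < N i i := by
  have hm : 0 < m := i.pos
  have h1 : ((∑ j ∈ univ.erase i, |N i j| : ℤ) : ℝ) ≤ (m - 1) * (ε * T) := by
    push_cast
    have : ∑ j ∈ univ.erase i, |(N i j : ℝ)| ≤ ∑ j ∈ (univ.erase i : Finset (Fin m)), ε * T := by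
      apply sum_le_sum
      intro j hj
      have h2 := hclose i j
      rw [if_neg (ne_of_mem_erase hj).symm, sub_zero] at h2
      exact h2
    refine this.trans (le_of_eq ?_)
    rw [sum_const, card_erase_of_mem (mem_univ i), card_univ, Fintype.card_fin, nsmul_eq_mul,
      Nat.cast_sub hm]
    simp
  have h2 := hclose i i
  rw [if_pos rfl, abs_le] at h2
  have h3 : (1 : ℝ) * T ≤ ν i * T := mul_le_mul_of_nonneg_right (by exact_mod_cast hν i) hT.le
  have h4 : (m : ℝ) * ε * T < 1 * T := mul_lt_mul_of_pos_right hmε hT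
  have h5 : ((∑ j ∈ univ.erase i, |N i j| : ℤ) : ℝ) < N i i := by linarith
  exact_mod_cast h5

lemma core {m : ℕ} (n s1 s : ℕ) {G' : Type*} [AddCommGroup G'] (a : Fin m → G')
    (hbasis : ∀ x : G', ∃ c : Fin m → ℕ, ∑ i, c i ≤ s1 ∧ ∑ i, (c i : ℤ) • a i = x)
    (ν : Fin m → ℕ) (hν : ∀ i, 0 < ν i) (f : Module.Basis (Fin m) ℤ (Fin m → ℤ))
    (hdvd : ∀ v : Fin m → ℤ, ∑ i, v i • a i = 0 → ∀ i, (ν i : ℤ) ∣ f.repr v i)
    (F G V : ℝ) (hF : ∀ l, ∑ j, |(f j l : ℝ)| ≤ F)
    (hG : ∀ i, ∑ l, |(f.repr (Pi.single l 1) i : ℝ)| ≤ G) (hV : ∀ i, (ν i : ℝ) ≤ V)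
    (hF0 : 0 ≤ F) (hG0 : 0 ≤ G) (hV0 : 0 ≤ V)
    (T ε : ℝ) (hT : 0 < T) (hε : 0 < ε) (hmε : (m : ℝ) * ε < 1) (hε1 : ε ≤ 1)
    (N : Fin m → Fin m → ℤ) (x : Fin m → ℤ) (hx : ∃ j, x j = 1)
    (hrow : ∀ i, ((∑ j, N i j * x j : ℤ) : ZMod n) = 0)
    (hclose : ∀ i j, |(N i j : ℝ) - (if i = j then (ν i : ℝ) * T else 0)| ≤ ε * T)
    (e : ℕ) (heT : (e : ℝ) ≤ T)
    (he : m * (G * ((V + 1) * F + 2 + s1)) * F * ε * T ≤ e)
    (hs : 2 * m * (e : ℝ) + (m + s1) * T ≤ s) :
    ∃ a' : Fin m → ZMod n, ∀ y : ZMod n, ∃ c : Fin m → ℕ, ∑ i, c i ≤ s ∧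
      ∑ i, (c i : ℤ) • a' i = y := by
  set ψ : (Fin m → ℤ) →ₗ[ℤ] ZMod n := f.constr ℤ (fun j => ((x j : ℤ) : ZMod n)) with hψ
  have hψf : ∀ j, ψ (f j) = ((x j : ℤ) : ZMod n) := fun j => f.constr_basis ℤ _ j
  refine ⟨fun l => ψ (Pi.single l 1), fun y => ?_⟩
  have hψa : ∀ v : Fin m → ℤ, ψ v = ∑ l, v l • ψ (Pi.single l 1) := by
    intro v
    conv_lhs => rw [← (Pi.basisFun ℤ (Fin m)).sum_repr v]
    rw [map_sum]
    apply sum_congr rfl
    intro l _
    rw [map_smul]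
    simp
  -- relations
  set r : Fin m → (Fin m → ℤ) := fun i => ∑ j, N i j • f j with hr
  have hψr : ∀ i, ψ (r i) = 0 := by
    intro i
    rw [hr]
    simp only
    rw [map_sum, ← hrow i]
    push_cast
    apply sum_congr rfl
    intro j _
    rw [map_smul, hψf, zsmul_eq_mul]
  -- reduce
  obtain ⟨c0, hc0S, hc0⟩ := reduce N (diag_dom ν hν T ε hT hmε N hclose)
    {c : Fin m → ℤ | ψ (∑ j, c j • f j) = y}
    (by
      obtain ⟨j0, hj0⟩ := hx
      obtain ⟨w, hw⟩ := ZMod.intCast_surjective y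
      refine ⟨fun j => if j = j0 then w else 0, ?_⟩
      show ψ _ = y
      have : ∑ j, (if j = j0 then w else 0) • f j = w • f j0 := by
        rw [sum_eq_single j0]
        · simp
        · intro j _ hj; simp [hj]
        · intro h; exact absurd (mem_univ j0) h
      rw [this, map_smul, hψf, hj0]
      simp [hw])
    (by
      intro c hc i
      have hc' : ψ (∑ j, c j • f j) = y := hc
      show ψ _ = y
      have : ∑ j, (c - N i) j • f j = (∑ j, c j • f j) - r i := by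
        rw [hr]; simp only
        rw [← sum_sub_distrib]
        apply sum_congr rfl
        intro j _
        rw [Pi.sub_apply, sub_smul]
      rw [this, map_sub, hψr, sub_zero, hc'])
    (by
      intro c hc i
      have hc' : ψ (∑ j, c j • f j) = y := hc
      show ψ _ = y
      have : ∑ j, (c + N i) j • f j = (∑ j, c j • f j) + r i := by
        rw [hr]; simp only
        rw [← sum_add_distrib]
        apply sum_congr rfl
        intro j _
        rw [Pi.add_apply, add_smul]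
      rw [this, map_add, hψr, add_zero, hc'])
  have hc0y : ψ (∑ j, c0 j • f j) = y := hc0S
  set z : Fin m → ℤ := ∑ j, c0 j • f j with hz
  have hc0r : ∀ i, |(c0 i : ℝ)| ≤ (V + 1) * T := by
    intro i
    have h1 : (|c0 i| : ℤ) ≤ N i i := (hc0 i).le
    have h2 : |(c0 i : ℝ)| ≤ N i i := by exact_mod_cast h1
    have h3 := hclose i i
    rw [if_pos rfl, abs_le] at h3
    have h4 : (ν i : ℝ) * T ≤ V * T := mul_le_mul_of_nonneg_right (hV i) hT.le
    have h5 : ε * T ≤ 1 * T := mul_le_mul_of_nonneg_right hε1 hT.le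
    linarith
  have hzl : ∀ l, |(z l : ℝ)| ≤ (V + 1) * T * F := by
    intro l
    have h1 : z l = ∑ j, c0 j * f j l := by
      rw [hz, Finset.sum_apply]
      simp
    rw [h1]
    push_cast
    calc |∑ j, (c0 j : ℝ) * (f j l : ℝ)| ≤ ∑ j, |(c0 j : ℝ) * (f j l : ℝ)| := abs_sum_le_sum_abs _ _
      _ ≤ ∑ j, (V + 1) * T * |(f j l : ℝ)| := by
        apply sum_le_sum
        intro j _
        rw [abs_mul]
        exact mul_le_mul_of_nonneg_right (hc0r j) (abs_nonneg _)
      _ = (V + 1) * T * ∑ j, |(f j l : ℝ)| := by rw [mul_sum]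
      _ ≤ (V + 1) * T * F := mul_le_mul_of_nonneg_left (hF l) (by positivity)
  -- μ
  set μ : Fin m → ℤ := fun l => ⌊((z l : ℝ) - e) / T⌋ with hμ
  have hμ1 : ∀ l, (μ l : ℝ) * T ≤ z l - e := by
    intro l
    have := Int.floor_le (((z l : ℝ) - e) / T)
    rw [le_div_iff₀ hT] at this
    exact this
  have hμ2 : ∀ l, (z l : ℝ) - e < (μ l + 1) * T := by
    intro l
    have := Int.lt_floor_add_one (((z l : ℝ) - e) / T)
    rw [div_lt_iff₀ hT] at this
    exact this
  have hμabs : ∀ l, |(μ l : ℝ)| ≤ (V + 1) * F + 2 := by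
    intro l
    have h1 := hzl l
    rw [abs_le] at h1
    rw [abs_le]
    have he0 : (0 : ℝ) ≤ e := by positivity
    constructor
    · have h2 := hμ2 l
      have h3 : (-((V + 1) * F + 2)) * T ≤ μ l * T := by
        have : (-((V + 1) * F + 2)) * T = -((V + 1) * T * F) - 2 * T := by ring
        rw [this]; linarith
      exact le_of_mul_le_mul_right h3 hT
    · have h2 := hμ1 l
      have h3 : μ l * T ≤ ((V + 1) * F + 2) * T := by
        have : ((V + 1) * F + 2) * T = (V + 1) * T * F + 2 * T := by ring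
        rw [this]; linarith
      exact le_of_mul_le_mul_right h3 hT
  obtain ⟨ρ, hρs, hρ⟩ := hbasis (∑ i, μ i • a i)
  set κ : Fin m → ℤ := fun l => μ l - ρ l with hκ
  have hκ0 : ∑ i, κ i • a i = 0 := by
    have : ∑ i, κ i • a i = ∑ i, μ i • a i - ∑ i, (ρ i : ℤ) • a i := by
      rw [← sum_sub_distrib]
      apply sum_congr rfl
      intro i _
      rw [hκ, sub_smul]
    rw [this, hρ, sub_self]
  have hρr : ∀ l, (ρ l : ℝ) ≤ s1 := by
    intro l
    have : ρ l ≤ ∑ i, ρ i := single_le_sum (f := ρ) (fun i _ => Nat.zero_le _) (mem_univ l)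
    exact_mod_cast this.trans hρs
  have hκabs : ∀ l, |(κ l : ℝ)| ≤ (V + 1) * F + 2 + s1 := by
    intro l
    rw [hκ]
    push_cast
    refine (abs_sub _ _).trans ?_
    have : |((ρ l : ℕ) : ℝ)| ≤ s1 := by
      rw [abs_of_nonneg (by positivity)]; exact hρr l
    linarith [hμabs l]
  choose k hk using hdvd κ hκ0
  have hκf : ∀ l, κ l = ∑ i, ((ν i : ℤ) * k i) * f i l := by
    intro l
    have h1 := f.sum_repr κ
    have h2 := congrFun h1 l
    rw [Finset.sum_apply] at h2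
    rw [← h2]
    apply sum_congr rfl
    intro i _
    rw [hk i]
    simp
  have hkabs : ∀ i, |(k i : ℝ)| ≤ G * ((V + 1) * F + 2 + s1) := by
    intro i
    have h1 : |(k i : ℝ)| ≤ |(f.repr κ i : ℝ)| := by
      rw [hk i]
      push_cast
      rw [abs_mul, abs_of_nonneg (by positivity : (0 : ℝ) ≤ ν i)]
      have : (1 : ℝ) * |(k i : ℝ)| ≤ ν i * |(k i : ℝ)| :=
        mul_le_mul_of_nonneg_right (by exact_mod_cast hν i) (abs_nonneg _)
      linarith
    refine h1.trans ?_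
    have h2 : f.repr κ i = ∑ l, κ l * f.repr (Pi.single l 1) i := by
      have : κ = ∑ l, κ l • (Pi.single l 1 : Fin m → ℤ) := by
        ext t
        rw [Finset.sum_apply]
        rw [sum_eq_single t]
        · simp
        · intro j _ hj; simp [Ne.symm hj]
        · intro h; exact absurd (mem_univ t) h
      conv_lhs => rw [this]
      rw [map_sum, Finsupp.finsetSum_apply]
      apply sum_congr rfl
      intro l _
      rw [map_smul]
      simp
    rw [h2]
    push_cast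
    calc |∑ l, (κ l : ℝ) * (f.repr (Pi.single l 1) i : ℝ)|
        ≤ ∑ l, |(κ l : ℝ) * (f.repr (Pi.single l 1) i : ℝ)| := abs_sum_le_sum_abs _ _
      _ ≤ ∑ l, ((V + 1) * F + 2 + s1) * |(f.repr (Pi.single l 1) i : ℝ)| := by
        apply sum_le_sum
        intro l _
        rw [abs_mul]
        exact mul_le_mul_of_nonneg_right (hκabs l) (abs_nonneg _)
      _ = ((V + 1) * F + 2 + s1) * ∑ l, |(f.repr (Pi.single l 1) i : ℝ)| := by rw [mul_sum]
      _ ≤ ((V + 1) * F + 2 + s1) * G := mul_le_mul_of_nonneg_left (hG i) (by positivity)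
      _ = _ := by ring
  -- λ
  set lam : Fin m → ℤ := z - ∑ i, k i • r i with hlam
  have hψlam : ψ lam = y := by
    rw [hlam, map_sub]
    have : ψ (∑ i, k i • r i) = 0 := by
      rw [map_sum]
      apply sum_eq_zero
      intro i _
      rw [map_smul, hψr, smul_zero]
    rw [this, sub_zero]
    exact hc0y
  have hlaml : ∀ l, (lam l : ℝ) = z l - T * κ l -
      ∑ i, ∑ j, (k i : ℝ) * ((N i j : ℝ) - (if i = j then (ν i : ℝ) * T else 0)) * (f j l : ℝ) := by
    intro l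
    have h1 : lam l = z l - ∑ i, k i * ∑ j, N i j * f j l := by
      rw [hlam, Pi.sub_apply, Finset.sum_apply]
      congr 1
      apply sum_congr rfl
      intro i _
      rw [hr]
      simp only [Pi.smul_apply, Finset.sum_apply, smul_eq_mul]
    rw [h1]
    have h2 : (κ l : ℝ) = ∑ i, ((ν i : ℝ) * k i) * f i l := by
      rw [hκf l]; push_cast; rfl
    rw [h2]
    push_cast
    rw [sub_sub, mul_sum, ← sum_add_distrib]
    congr 1
    apply sum_congr rfl
    intro i _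
    have h3 : ∑ j, (k i : ℝ) * ((N i j : ℝ) - (if i = j then (ν i : ℝ) * T else 0)) * (f j l : ℝ) =
        (k i : ℝ) * ∑ j, (N i j : ℝ) * f j l - (k i : ℝ) * ((ν i : ℝ) * T) * f i l := by
      have h4 : ∀ j, (k i : ℝ) * ((N i j : ℝ) - (if i = j then (ν i : ℝ) * T else 0)) * (f j l : ℝ) =
        (k i : ℝ) * ((N i j : ℝ) * f j l) - (if i = j then (k i : ℝ) * ((ν i : ℝ) * T) * f j l else 0) := by
        intro j
        split_ifs <;> ring
      rw [sum_congr rfl (fun j _ => h4 j), sum_sub_distrib, ← mul_sum, sum_ite_eq]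
      simp
    rw [h3]
    ring
  have herr : ∀ l, |∑ i, ∑ j, (k i : ℝ) * ((N i j : ℝ) - (if i = j then (ν i : ℝ) * T else 0)) *
      (f j l : ℝ)| ≤ e := by
    intro l
    refine le_trans ?_ he
    calc |∑ i, ∑ j, (k i : ℝ) * ((N i j : ℝ) - (if i = j then (ν i : ℝ) * T else 0)) * (f j l : ℝ)|
        ≤ ∑ i, |∑ j, (k i : ℝ) * ((N i j : ℝ) - (if i = j then (ν i : ℝ) * T else 0)) * (f j l : ℝ)| :=
          abs_sum_le_sum_abs _ _
      _ ≤ ∑ i : Fin m, (G * ((V + 1) * F + 2 + s1)) * (ε * T) * F := by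
        apply sum_le_sum
        intro i _
        calc |∑ j, (k i : ℝ) * ((N i j : ℝ) - (if i = j then (ν i : ℝ) * T else 0)) * (f j l : ℝ)|
            ≤ ∑ j, |(k i : ℝ) * ((N i j : ℝ) - (if i = j then (ν i : ℝ) * T else 0)) * (f j l : ℝ)| :=
              abs_sum_le_sum_abs _ _
          _ ≤ ∑ j, (G * ((V + 1) * F + 2 + s1)) * (ε * T) * |(f j l : ℝ)| := by
            apply sum_le_sum
            intro j _
            rw [abs_mul, abs_mul]
            apply mul_le_mul_of_nonneg_right _ (abs_nonneg _)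
            exact mul_le_mul (hkabs i) (hclose i j) (abs_nonneg _) (by positivity)
          _ = (G * ((V + 1) * F + 2 + s1)) * (ε * T) * ∑ j, |(f j l : ℝ)| := by rw [mul_sum]
          _ ≤ _ := mul_le_mul_of_nonneg_left (hF l) (by positivity)
      _ = m * (G * ((V + 1) * F + 2 + s1)) * F * ε * T := by
        rw [sum_const, card_univ, Fintype.card_fin, nsmul_eq_mul]; ring
  have hκμ : ∀ l, (κ l : ℝ) = μ l - ρ l := by
    intro l; rw [hκ]; push_cast; rfl
  have hlam0 : ∀ l, 0 ≤ lam l := by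
    intro l
    have h1 := herr l
    rw [abs_le] at h1
    have h2 := hμ1 l
    have h3 : (0 : ℝ) ≤ ρ l * T := by positivity
    have : (0 : ℝ) ≤ lam l := by
      rw [hlaml l, hκμ l]
      linarith [h1.2]
    exact_mod_cast this
  have hlamup : ∀ l, (lam l : ℝ) ≤ 2 * e + T + ρ l * T := by
    intro l
    have h1 := herr l
    rw [abs_le] at h1
    have h2 := hμ2 l
    rw [hlaml l, hκμ l]
    linarith [h1.1]
  refine ⟨fun l => (lam l).toNat, ?_, ?_⟩
  · have h1 : (((∑ l, (lam l).toNat : ℕ)) : ℝ) = ∑ l, (lam l : ℝ) := by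
      push_cast
      apply sum_congr rfl
      intro l _
      have : (((lam l).toNat : ℤ) : ℝ) = (lam l : ℝ) := by rw [Int.toNat_of_nonneg (hlam0 l)]
      rw [Int.cast_natCast] at this
      exact this
    have h2 : (((∑ l, (lam l).toNat : ℕ)) : ℝ) ≤ s := by
      rw [h1]
      refine le_trans ?_ hs
      calc ∑ l, (lam l : ℝ) ≤ ∑ l, (2 * (e : ℝ) + T + ρ l * T) := sum_le_sum fun l _ => hlamup l
        _ = m * (2 * e + T) + (∑ l, (ρ l : ℝ)) * T := by
          rw [sum_add_distrib, sum_const, card_univ, Fintype.card_fin, nsmul_eq_mul, sum_mul]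
        _ ≤ m * (2 * e + T) + s1 * T := by
          have : (∑ l, (ρ l : ℝ)) ≤ s1 := by exact_mod_cast hρs
          have := mul_le_mul_of_nonneg_right this hT.le
          linarith
        _ = _ := by ring
    exact_mod_cast h2
  · rw [← hψlam, hψa lam]
    apply sum_congr rfl
    intro l _
    rw [Int.toNat_of_nonneg (hlam0 l)]

end Pool.Agent.Lib.MP_ffcda7_co
end

section

set_option autoImplicit false

open Finset Filter Topology

namespace Pool.Agent.Lib.MP_ffcda7_co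

theorem transfer (m : ℕ) (hm : 1 ≤ m) {G' : Type*} [AddCommGroup G'] [Finite G'] (s1 : ℕ)
    (h : FB G' m s1) (δ : ℝ) (hδ : 0 < δ) :
    ∃ P : ℕ, Nat.card G' ≤ P ∧ ∃ T0 : ℝ, 0 < T0 ∧ ∀ T : ℝ, T0 ≤ T → ∀ n : ℕ,
      (n : ℝ) = P * T ^ m → ∀ s : ℕ, (s1 + m + δ) * T ≤ s → FB (ZMod n) m s := by
  obtain ⟨a, hbasis⟩ := h
  obtain ⟨ν, f, hν, hP, hdvd⟩ := smith m a (fun x => by
    obtain ⟨c, _, hc⟩ := hbasis x
    exact ⟨fun i => c i, hc⟩)
  set F : ℝ := ∑ l, ∑ j, |(f j l : ℝ)| with hFdef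
  set G : ℝ := ∑ i, ∑ l, |(f.repr (Pi.single l 1) i : ℝ)| with hGdef
  set V : ℝ := ∑ i, (ν i : ℝ) with hVdef
  have hF0 : 0 ≤ F := sum_nonneg fun l _ => sum_nonneg fun j _ => abs_nonneg _
  have hG0 : 0 ≤ G := sum_nonneg fun l _ => sum_nonneg fun j _ => abs_nonneg _
  have hV0 : 0 ≤ V := sum_nonneg fun i _ => by positivity
  have hF : ∀ l, ∑ j, |(f j l : ℝ)| ≤ F := fun l =>
    single_le_sum (f := fun l => ∑ j, |(f j l : ℝ)|)
      (fun l _ => sum_nonneg fun j _ => abs_nonneg _) (mem_univ l)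
  have hG : ∀ i, ∑ l, |(f.repr (Pi.single l 1) i : ℝ)| ≤ G := fun i =>
    single_le_sum (f := fun i => ∑ l, |(f.repr (Pi.single l 1) i : ℝ)|)
      (fun l _ => sum_nonneg fun j _ => abs_nonneg _) (mem_univ i)
  have hV : ∀ i, (ν i : ℝ) ≤ V := fun i =>
    single_le_sum (f := fun i => (ν i : ℝ)) (fun l _ => by positivity) (mem_univ i)
  set C : ℝ := m * (G * ((V + 1) * F + 2 + s1)) * F with hC
  have hC0 : 0 ≤ C := by positivity
  have hm0 : (1 : ℝ) ≤ m := by exact_mod_cast hm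
  obtain ⟨δ', hδ'0, hδ'1, hδ'δ⟩ : ∃ δ' : ℝ, 0 < δ' ∧ δ' ≤ 1 ∧ δ' ≤ δ :=
    ⟨min 1 δ, by positivity, min_le_left _ _, min_le_right _ _⟩
  set ε : ℝ := δ' / (8 * m * (C + 1)) with hε
  have hε0 : 0 < ε := by positivity
  have hεC : ε * (8 * m * (C + 1)) = δ' := by rw [hε]; field_simp
  have hmε : 8 * m * ε ≤ δ' := by
    have h0 : 0 ≤ 8 * m * ε := by positivity
    have : 8 * m * ε * 1 ≤ 8 * m * ε * (C + 1) := mul_le_mul_of_nonneg_left (by linarith) h0
    linarith
  have hCε : 8 * m * (C * ε) ≤ δ' := by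
    have h0 : 0 ≤ 8 * m * ε := by positivity
    have : 8 * m * ε * C ≤ 8 * m * ε * (C + 1) := mul_le_mul_of_nonneg_left (by linarith) h0
    linarith
  have hε1 : ε ≤ 1 := by
    have : 1 * ε ≤ m * ε := mul_le_mul_of_nonneg_right hm0 hε0.le
    linarith
  set ν' : ℕ → ℕ := fun i => if h : i < m then ν ⟨i, h⟩ else 1 with hν'
  have hν'0 : ∀ i, 0 < ν' i := by
    intro i
    rw [hν']; dsimp only
    split_ifs with h
    · exact hν _
    · exact one_pos
  have hν'f : ∀ i : Fin m, ν' i = ν i := by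
    intro i
    rw [hν']; dsimp only
    rw [dif_pos i.2]
  obtain ⟨T0, hT0, hchain⟩ := good_all m hm ν' hν'0 ε hε0
  refine ⟨∏ i, ν i, hP, max T0 (max 2 (4 * m / δ)), lt_max_of_lt_left hT0, ?_⟩
  intro T hT n hn s hs
  have hTT0 : T0 ≤ T := (le_max_left _ _).trans hT
  have hT2 : 2 ≤ T := ((le_max_left _ _).trans (le_max_right _ _)).trans hT
  have hTδ : 4 * m ≤ δ * T := by
    have : 4 * m / δ ≤ T := ((le_max_right _ _).trans (le_max_right _ _)).trans hT
    rw [div_le_iff₀ hδ] at this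
    linarith
  have hTpos : 0 < T := by linarith
  have hprod : (∏ i ∈ range m, (ν' i : ℝ)) = ∏ i, (ν i : ℝ) := by
    rw [Finset.prod_range]
    exact prod_congr rfl fun i _ => by rw [hν'f]
  obtain ⟨N, x, hx0, hrow, hlast, hclose⟩ := hchain T hTT0 n (by
    rw [hprod, hn]; push_cast; rfl)
  obtain ⟨e, he1, he2⟩ : ∃ e : ℕ, C * ε * T ≤ e ∧ (e : ℝ) < C * ε * T + 1 :=
    ⟨⌈C * ε * T⌉₊, Nat.le_ceil _, Nat.ceil_lt_add_one (by positivity)⟩
  have hCT : 8 * m * (C * ε * T) ≤ δ' * T := by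
    have := mul_le_mul_of_nonneg_right hCε hTpos.le
    linarith
  have hδT : δ' * T ≤ δ * T := mul_le_mul_of_nonneg_right hδ'δ hTpos.le
  have hδT1 : δ' * T ≤ 1 * T := mul_le_mul_of_nonneg_right hδ'1 hTpos.le
  refine core n s1 s a hbasis ν hν f hdvd F G V hF hG hV hF0 hG0 hV0 T ε hTpos hε0
    (by linarith) hε1 (fun i j => N i j) (fun j => x j) ⟨⟨0, hm⟩, hx0⟩ ?_ ?_ e ?_ he1 ?_
  · intro i
    by_cases hi : (i : ℕ) + 1 < m
    · have h1 := hrow i hi
      rw [Finset.sum_range] at h1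
      rw [h1]; simp
    · have hi' : (i : ℕ) = m - 1 := by have := i.2; omega
      rw [Finset.sum_range] at hlast
      rw [hi', hlast]
      simp
  · intro i j
    have h1 := hclose i i.2 j j.2
    have h2 : ((i : ℕ) = (j : ℕ)) ↔ i = j := Fin.val_inj
    simp only [h2, hν'f] at h1
    exact h1
  · have h3 : 1 * (C * ε * T) ≤ m * (C * ε * T) := mul_le_mul_of_nonneg_right hm0 (by positivity)
    linarith
  · have h4 : 2 * m * (e : ℝ) ≤ 2 * m * (C * ε * T + 1) :=
      mul_le_mul_of_nonneg_left he2.le (by positivity)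
    have h5 : (m + s1 + δ) * T ≤ s := by linarith
    have h6 : 0 < δ * T := by positivity
    linarith


lemma lower (m : ℕ) (hm : 1 ≤ m) {G' : Type*} [AddCommGroup G'] [Finite G'] (s1 : ℕ)
    (h : FB G' m s1) (κ' : ℝ) (hκ0 : 0 ≤ κ') (hκ : κ' * (s1 + m : ℝ) ^ m < Nat.card G') :
    ∀ᶠ s : ℕ in atTop, κ' * (s : ℝ) ^ m ≤ g m s := by
  have hm0 : (1 : ℝ) ≤ m := by exact_mod_cast hm
  -- choose δ
  obtain ⟨δ, hδ, hδκ⟩ : ∃ δ : ℝ, 0 < δ ∧ κ' * (s1 + m + δ : ℝ) ^ m < Nat.card G' := by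
    have hc : Continuous (fun δ : ℝ => κ' * (s1 + m + δ : ℝ) ^ m) := by fun_prop
    have ht := (hc.tendsto 0).mono_left (nhdsWithin_le_nhds (s := Set.Ioi 0))
    have hev := ht.eventually_lt_const (u := (Nat.card G' : ℝ)) (by simpa using hκ)
    obtain ⟨δ, h1, h2⟩ := (hev.and self_mem_nhdsWithin).exists
    exact ⟨δ, h2, h1⟩
  obtain ⟨P, hP, T0, hT0, htr⟩ := transfer m hm s1 h δ hδ
  have hPr : (Nat.card G' : ℝ) ≤ P := by exact_mod_cast hP
  set D : ℝ := s1 + m + δ with hD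
  have hD0 : 0 < D := by positivity
  have hP0 : (0 : ℝ) < P := by
    have : 0 < Nat.card G' := Nat.card_pos
    have : (0 : ℝ) < Nat.card G' := by exact_mod_cast this
    linarith
  have hgap : 0 < P / D ^ m - κ' := by
    rw [sub_pos, lt_div_iff₀ (by positivity)]
    linarith
  -- eventually
  have hev1 : ∀ᶠ s : ℕ in atTop, P * T0 ^ m ≤ s := by
    have := tendsto_natCast_atTop_atTop (R := ℝ)
    exact this.eventually_ge_atTop _
  have hev2 : ∀ᶠ s : ℕ in atTop, 1 / (P / D ^ m - κ') ≤ s := by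
    have := tendsto_natCast_atTop_atTop (R := ℝ)
    exact this.eventually_ge_atTop _
  filter_upwards [hev1, hev2, eventually_ge_atTop 1] with s hs1 hs2 hs3
  have hs3r : (1 : ℝ) ≤ s := by exact_mod_cast hs3
  refine le_trans (Nat.le_ceil _) ?_
  have hle : ⌈κ' * (s : ℝ) ^ m⌉₊ ≤ g m s := by
    apply le_g
    intro n hn1 hn2
    apply HasBasis_of_FB
    by_cases hsmall : n ≤ s + 1
    · exact FB_small hn1 hm hsmall
    · push Not at hsmall
      have hnr : (s : ℝ) < n := by exact_mod_cast (by omega : s < n)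
      have hT : ((n / P : ℝ) ^ ((1 : ℝ) / (m : ℝ))) ^ m = n / P := by
        rw [one_div]
        exact Real.rpow_inv_natCast_pow (by positivity) (by omega)
      set T : ℝ := (n / P : ℝ) ^ ((1 : ℝ) / (m : ℝ)) with hTdef
      have hTnn : 0 ≤ T := by positivity
      have hTn : (n : ℝ) = P * T ^ m := by rw [hT]; field_simp
      refine htr T ?_ n hTn s ?_
      · have : T0 ^ m ≤ T ^ m := by
          rw [hT, le_div_iff₀ hP0]
          linarith
        exact (pow_le_pow_iff_left₀ hT0.le hTnn (by omega)).1 this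
      · have hn3 : (n : ℝ) < κ' * (s : ℝ) ^ m + 1 := by
          have h1 : (n : ℝ) ≤ (⌈κ' * (s : ℝ) ^ m⌉₊ : ℝ) := by exact_mod_cast hn2
          exact lt_of_le_of_lt h1 (Nat.ceil_lt_add_one (by positivity))
        have hn4 : 1 ≤ (P / D ^ m - κ') * (s : ℝ) ^ m := by
          rw [div_le_iff₀ hgap] at hs2
          have h2 : (s : ℝ) ≤ (s : ℝ) ^ m := by
            calc (s : ℝ) = (s : ℝ) ^ 1 := (pow_one _).symm
              _ ≤ (s : ℝ) ^ m := pow_le_pow_right₀ hs3r hm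
          have h3 : (P / D ^ m - κ') * (s : ℝ) ≤ (P / D ^ m - κ') * (s : ℝ) ^ m :=
            mul_le_mul_of_nonneg_left h2 hgap.le
          linarith
        have hn5 : (n : ℝ) ≤ P / D ^ m * (s : ℝ) ^ m := by linarith
        have : (D * T) ^ m ≤ (s : ℝ) ^ m := by
          rw [mul_pow, hT, ← mul_div_assoc, div_le_iff₀ hP0]
          calc D ^ m * n ≤ D ^ m * (P / D ^ m * (s : ℝ) ^ m) :=
                mul_le_mul_of_nonneg_left hn5 (by positivity)
            _ = (s : ℝ) ^ m * P := by field_simp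
        exact (pow_le_pow_iff_left₀ (by positivity) (by positivity) (by omega)).1 this
  exact_mod_cast hle

/-- the limiting constant -/
noncomputable def kap (m : ℕ) : ℝ := sSup (Set.range fun s : ℕ => (f m s : ℝ) / (s + m : ℝ) ^ m)

lemma kap_bdd (m : ℕ) (hm : 1 ≤ m) :
    BddAbove (Set.range fun s : ℕ => (f m s : ℝ) / (s + m : ℝ) ^ m) := by
  refine ⟨1, ?_⟩
  rintro _ ⟨s, rfl⟩
  have hm0 : (1 : ℝ) ≤ m := by exact_mod_cast hm
  simp only
  rw [div_le_one (by positivity)]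
  have h1 : (f m s : ℝ) ≤ (s + 1 : ℝ) ^ m := by exact_mod_cast f_le m s
  refine h1.trans (pow_le_pow_left₀ (by positivity) (by linarith) _)

lemma f_le_kap (m : ℕ) (hm : 1 ≤ m) (s : ℕ) : (f m s : ℝ) ≤ kap m * (s + m : ℝ) ^ m := by
  have hm0 : (1 : ℝ) ≤ m := by exact_mod_cast hm
  have h := le_csSup (kap_bdd m hm) ⟨s, rfl⟩
  rw [← div_le_iff₀ (by positivity)]
  exact h

lemma kap_pos (m : ℕ) (hm : 1 ≤ m) : 0 < kap m := by
  have hm0 : (1 : ℝ) ≤ m := by exact_mod_cast hm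
  have h := f_le_kap m hm 0
  have h1 : (1 : ℝ) ≤ f m 0 := by exact_mod_cast (f_mem m 0).1
  by_contra hcon
  push Not at hcon
  have : kap m * ((0 : ℕ) + m : ℝ) ^ m ≤ 0 := mul_nonpos_of_nonpos_of_nonneg hcon (by positivity)
  linarith

lemma lower_kap (m : ℕ) (hm : 1 ≤ m) (κ' : ℝ) (hκ' : κ' < kap m) :
    ∀ᶠ s : ℕ in atTop, κ' * (s : ℝ) ^ m ≤ g m s := by
  have hm0 : (1 : ℝ) ≤ m := by exact_mod_cast hm
  by_cases h0 : κ' ≤ 0
  · refine Eventually.of_forall fun s => ?_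
    have : κ' * (s : ℝ) ^ m ≤ 0 := mul_nonpos_of_nonpos_of_nonneg h0 (by positivity)
    refine this.trans (by positivity)
  · push Not at h0
    obtain ⟨_, ⟨s1, rfl⟩, hs1⟩ := exists_lt_of_lt_csSup (Set.range_nonempty _) hκ'
    simp only at hs1
    rw [lt_div_iff₀ (by positivity)] at hs1
    have hf1 : NeZero (f m s1) := ⟨by have := (f_mem m s1).1; omega⟩
    apply lower m hm s1 (FB_of_HasBasis (f_mem m s1).2) κ' h0.le
    simpa using hs1

theorem tendsto_g (m : ℕ) (hm : 1 ≤ m) :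
    Tendsto (fun s : ℕ => (g m s : ℝ) / (s : ℝ) ^ m) atTop (𝓝 (kap m)) := by
  have hm0 : (1 : ℝ) ≤ m := by exact_mod_cast hm
  have hup : Tendsto (fun s : ℕ => kap m * (((s : ℝ) + m) / s) ^ m) atTop (𝓝 (kap m)) := by
    have h1 : Tendsto (fun s : ℕ => ((s : ℝ) + m) / s) atTop (𝓝 1) := by
      have h2 : Tendsto (fun s : ℕ => 1 + (m : ℝ) / s) atTop (𝓝 (1 + 0)) :=
        tendsto_const_nhds.add (tendsto_const_div_atTop_nhds_zero_nat _)
      rw [add_zero] at h2
      refine h2.congr' ?_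
      filter_upwards [eventually_ge_atTop 1] with s hs
      have : (s : ℝ) ≠ 0 := by positivity
      field_simp
    have h3 := (h1.pow m).const_mul (kap m)
    simpa using h3
  rw [tendsto_order]
  constructor
  · intro κ' hκ'
    obtain ⟨κ'', h1, h2⟩ := exists_between hκ'
    filter_upwards [lower_kap m hm κ'' h2, eventually_ge_atTop 1] with s hs hs1
    have hs1r : (1 : ℝ) ≤ s := by exact_mod_cast hs1
    refine lt_of_lt_of_le h1 ?_
    rw [le_div_iff₀ (by positivity)]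
    exact hs
  · intro κ' hκ'
    filter_upwards [hup.eventually_lt_const hκ', eventually_ge_atTop 1] with s hs hs1
    have hs1r : (1 : ℝ) ≤ s := by exact_mod_cast hs1
    refine lt_of_le_of_lt ?_ hs
    rw [div_pow, ← mul_div_assoc]
    apply div_le_div_of_nonneg_right _ (by positivity)
    have h1 : (g m s : ℝ) ≤ f m s := by exact_mod_cast g_le_f m s
    exact h1.trans (f_le_kap m hm s)

theorem tendsto_f (m : ℕ) (hm : 1 ≤ m) :
    Tendsto (fun s : ℕ => (f m s : ℝ) / (s : ℝ) ^ m) atTop (𝓝 (kap m)) := by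
  have hm0 : (1 : ℝ) ≤ m := by exact_mod_cast hm
  have hup : Tendsto (fun s : ℕ => kap m * (((s : ℝ) + m) / s) ^ m) atTop (𝓝 (kap m)) := by
    have h1 : Tendsto (fun s : ℕ => ((s : ℝ) + m) / s) atTop (𝓝 1) := by
      have h2 : Tendsto (fun s : ℕ => 1 + (m : ℝ) / s) atTop (𝓝 (1 + 0)) :=
        tendsto_const_nhds.add (tendsto_const_div_atTop_nhds_zero_nat _)
      rw [add_zero] at h2
      refine h2.congr' ?_
      filter_upwards [eventually_ge_atTop 1] with s hs
      have : (s : ℝ) ≠ 0 := by positivity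
      field_simp
    have h3 := (h1.pow m).const_mul (kap m)
    simpa using h3
  refine tendsto_of_tendsto_of_tendsto_of_le_of_le' (tendsto_g m hm) hup ?_ ?_
  · filter_upwards [eventually_ge_atTop 1] with s hs1
    apply div_le_div_of_nonneg_right _ (by positivity)
    exact_mod_cast g_le_f m s
  · filter_upwards [eventually_ge_atTop 1] with s hs1
    have hs1r : (1 : ℝ) ≤ s := by exact_mod_cast hs1
    rw [div_pow, ← mul_div_assoc]
    apply div_le_div_of_nonneg_right _ (by positivity)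
    exact f_le_kap m hm s

/-- no finite abelian group beats the constant. -/
theorem card_le_kap (m : ℕ) (hm : 1 ≤ m) {G' : Type*} [AddCommGroup G'] [Finite G'] (s1 : ℕ)
    (h : FB G' m s1) : (Nat.card G' : ℝ) ≤ kap m * (s1 + m : ℝ) ^ m := by
  have hm0 : (1 : ℝ) ≤ m := by exact_mod_cast hm
  by_contra hcon
  push Not at hcon
  obtain ⟨κ', h1, h2⟩ : ∃ κ' : ℝ, kap m < κ' ∧ κ' * (s1 + m : ℝ) ^ m < Nat.card G' := by
    have hlt : kap m < (Nat.card G' : ℝ) / (s1 + m : ℝ) ^ m := by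
      rw [lt_div_iff₀ (by positivity)]; exact hcon
    obtain ⟨κ', h1, h2⟩ := _root_.exists_between hlt
    exact ⟨κ', h1, by rwa [lt_div_iff₀ (by positivity)] at h2⟩
  have h3 := lower m hm s1 h κ' ((kap_pos m hm).le.trans h1.le) h2
  have h4 : κ' ≤ kap m := by
    refine ge_of_tendsto (tendsto_g m hm) ?_
    filter_upwards [h3, eventually_ge_atTop 1] with s hs hs1
    have hs1r : (1 : ℝ) ≤ s := by exact_mod_cast hs1
    rw [le_div_iff₀ (by positivity)]
    exact hs
  linarith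

/-- supermultiplicativity -/
theorem kap_mul (p q : ℕ) (hp : 1 ≤ p) (hq : 1 ≤ q) :
    (kap p * p ^ p) * (kap q * q ^ q) ≤ kap (p + q) * ((p + q : ℕ) : ℝ) ^ (p + q) := by
  have hp0 : (1 : ℝ) ≤ p := by exact_mod_cast hp
  have hq0 : (1 : ℝ) ≤ q := by exact_mod_cast hq
  -- sequence t ↦ f p (p t) * f q (q t) / t^(p+q)
  have hmulp : Tendsto (fun t : ℕ => p * t) atTop atTop :=
    tendsto_id.const_mul_atTop' (by omega)
  have hmulq : Tendsto (fun t : ℕ => q * t) atTop atTop :=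
    tendsto_id.const_mul_atTop' (by omega)
  have h1 : Tendsto (fun t : ℕ => (f p (p * t) : ℝ) / (t : ℝ) ^ p) atTop (𝓝 (kap p * p ^ p)) := by
    have := ((tendsto_f p hp).comp hmulp).mul_const ((p : ℝ) ^ p)
    refine this.congr' ?_
    filter_upwards [eventually_ge_atTop 1] with t ht
    have ht0 : (t : ℝ) ≠ 0 := by positivity
    simp only [Function.comp]
    push_cast
    rw [mul_pow]
    field_simp
  have h2 : Tendsto (fun t : ℕ => (f q (q * t) : ℝ) / (t : ℝ) ^ q) atTop (𝓝 (kap q * q ^ q)) := by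
    have := ((tendsto_f q hq).comp hmulq).mul_const ((q : ℝ) ^ q)
    refine this.congr' ?_
    filter_upwards [eventually_ge_atTop 1] with t ht
    have ht0 : (t : ℝ) ≠ 0 := by positivity
    simp only [Function.comp]
    push_cast
    rw [mul_pow]
    field_simp
  have h3 := h1.mul h2
  have h4 : Tendsto (fun t : ℕ => kap (p + q) * (((p + q : ℕ) : ℝ) * ((t + 1 : ℝ) / t)) ^ (p + q)) atTop
      (𝓝 (kap (p + q) * ((p + q : ℕ) : ℝ) ^ (p + q))) := by
    have h5 : Tendsto (fun s : ℕ => ((s : ℝ) + 1) / s) atTop (𝓝 1) := by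
      have h2 : Tendsto (fun s : ℕ => 1 + (1 : ℝ) / s) atTop (𝓝 (1 + 0)) :=
        tendsto_const_nhds.add (tendsto_const_div_atTop_nhds_zero_nat _)
      rw [add_zero] at h2
      refine h2.congr' ?_
      filter_upwards [eventually_ge_atTop 1] with s hs
      have : (s : ℝ) ≠ 0 := by positivity
      field_simp
    have h6 := (((h5.const_mul ((p + q : ℕ) : ℝ))).pow (p + q)).const_mul (kap (p + q))
    simpa using h6
  refine le_of_tendsto_of_tendsto h3 h4 ?_
  filter_upwards [eventually_ge_atTop 1] with t ht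
  have ht0 : (0 : ℝ) < t := by positivity
  have hfp : NeZero (f p (p * t)) := ⟨by have := (f_mem p (p * t)).1; omega⟩
  have hfq : NeZero (f q (q * t)) := ⟨by have := (f_mem q (q * t)).1; omega⟩
  have hFB := (FB_of_HasBasis (f_mem p (p * t)).2).prod (FB_of_HasBasis (f_mem q (q * t)).2)
  have h7 := card_le_kap (p + q) (by omega) _ hFB
  rw [Nat.card_prod, Nat.card_zmod, Nat.card_zmod] at h7
  push_cast at h7 ⊢
  have h8 : (f p (p * t) : ℝ) / (t : ℝ) ^ p * ((f q (q * t) : ℝ) / (t : ℝ) ^ q) =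
      (f p (p * t) : ℝ) * f q (q * t) / (t : ℝ) ^ (p + q) := by
    rw [pow_add]; field_simp
  rw [h8, div_le_iff₀ (by positivity)]
  refine h7.trans (le_of_eq ?_)
  rw [mul_assoc, ← mul_pow]
  congr 2
  field_simp


lemma kap_one : 1 ≤ kap 1 := by
  refine ge_of_tendsto (tendsto_f 1 le_rfl) ?_
  filter_upwards [eventually_ge_atTop 1] with s hs
  have hs0 : (0 : ℝ) < s := by positivity
  rw [le_div_iff₀ (by positivity), one_mul, pow_one]
  have : s + 1 ≤ f 1 s := le_f (by omega) (HasBasis_of_FB (FB_small (by omega) le_rfl le_rfl))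
  exact_mod_cast (by omega : s ≤ f 1 s)

/-- digits for `{2, 9, 35}` in `ℤ/84`. -/
lemma table84 : ∀ y : Fin 84, ∃ c0 c1 c2 : Fin 8, (c0 : ℕ) + c1 + c2 ≤ 7 ∧
    ((c0 : ℕ) * 2 + c1 * 9 + c2 * 35) % 84 = y := by
  decide

lemma FB84 : FB (ZMod 84) 3 7 := by
  refine ⟨![2, 9, 35], fun y => ?_⟩
  obtain ⟨c0, c1, c2, h1, h2⟩ := table84 y
  refine ⟨![c0, c1, c2], ?_, ?_⟩
  · rw [Fin.sum_univ_three]
    simpa using h1
  · rw [Fin.sum_univ_three]
    simp only [Matrix.cons_val_zero, Matrix.cons_val_one, Matrix.cons_val]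
    have h3 : ((((c0 : ℕ) * 2 + c1 * 9 + c2 * 35) % 84 : ℕ) : ZMod 84) = (ZMod.val y : ℕ) := by
      rw [h2]; rfl
    rw [ZMod.natCast_mod] at h3
    have h4 : ((ZMod.val y : ℕ) : ZMod 84) = y := ZMod.natCast_zmod_val (n := 84) y
    rw [h4] at h3
    rw [← h3]
    push_cast
    simp only [zsmul_eq_mul]
    push_cast
    ring

lemma kap_three : (567 / 250 : ℝ) ≤ kap 3 * 3 ^ 3 := by
  have h := card_le_kap 3 (by norm_num) (G' := ZMod 84) 7 FB84
  rw [Nat.card_zmod] at h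
  norm_num at h
  linarith

theorem kap_lower (m : ℕ) (hm : 1 ≤ m) : (567 / 250 : ℝ) ^ (m / 3) ≤ kap m * (m : ℝ) ^ m := by
  induction m using Nat.strong_induction_on with
  | _ m ih =>
    by_cases h3 : m ≤ 3
    · interval_cases m
      · simpa using kap_one
      · have := kap_mul 1 1 le_rfl le_rfl
        norm_num at this ⊢
        have h1 := kap_one
        nlinarith
      · have := kap_three
        norm_num at this ⊢
        linarith
    · push Not at h3
      have h1 := ih (m - 3) (by omega) (by omega)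
      have h2 := kap_mul (m - 3) 3 (by omega) (by norm_num)
      rw [show m - 3 + 3 = m by omega] at h2
      have h4 : m / 3 = (m - 3) / 3 + 1 := by omega
      rw [h4, pow_succ]
      refine le_trans ?_ h2
      have h5 := kap_three
      push_cast
      have h6 : (0 : ℝ) ≤ (567 / 250 : ℝ) ^ ((m - 3) / 3) := by positivity
      exact mul_le_mul h1 h5 (by norm_num) (h6.trans h1)

end Pool.Agent.Lib.MP_ffcda7_co
end
end
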